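import Pool.Agent.XD.Num.Layer
import Pool.Agent.XD.Kill
import Pool.Agent.XD.Sys

/-!
# XE, module B: the boundary

`bd`: if some `A e m t j ≤ 0`, `j < d`: `layer`, second part, and `kill`.  Otherwise `layer (d - 1)`, first part, for `j < d - 1`,
and `step (d - 1)` (if `A e m t (d - 1)` is small then `A e m t d ≤ - c' m^d`: `kill`).
`Sys_small`: if `F m t d ≠ 0` then every power removes at least one monomial (`Sys.stair`: `y_{m-1}^d ∈ N`).
`A_abs`: induction on `t`.
-/

set_option autoImplicit false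

namespace Pool.Agent.XE

open Finset Pool.Agent.XD

theorem bd (d : ℕ) (hd : 2 ≤ d) : ∃ η : ℝ, 0 < η ∧ ∃ n₁ : ℕ, ∀ m, n₁ ≤ m → ∀ e : ℕ → ℕ,
    (∀ s, 2 ≤ e s) → ∀ t, (∀ s < t, e s ≤ d) →
      FF e m t d = 0 ∨ ∀ j < d, η * (m : ℝ) ^ j ≤ (A e m t j : ℝ) := by
  obtain ⟨c, hc, n₁, hL⟩ := layer d
  obtain ⟨c₂, hc₂, n₂, hL₂⟩ := layer (d - 1)
  obtain ⟨c', hc', n₃, hst⟩ := step (d - 1) c₂ hc₂
  obtain ⟨n₄, hK⟩ := kill d (min c c') (lt_min hc hc')
  refine ⟨min c₂ c', lt_min hc₂ hc', n₁ + n₂ + n₃ + n₄, fun m hm e he t ht => ?_⟩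
  have hpow : ∀ j : ℕ, 0 ≤ (m : ℝ) ^ j := fun j => by positivity
  have hes : ∀ s < t, 1 ≤ e s ∧ e s ≤ d := fun s hs => ⟨le_trans (by norm_num) (he s), ht s hs⟩
  by_cases h : ∃ j < d, A e m t j ≤ 0
  · left
    obtain ⟨j, hj, h'⟩ := (hL m (by omega) e he t).2 h
    refine hK m (by omega) e t hes ⟨j, hj, h'.trans (neg_le_neg ?_)⟩
    exact mul_le_mul_of_nonneg_right (min_le_left _ _) (hpow j)
  · push Not at h
    have h1 := (hL₂ m (by omega) e he t).1 fun j hj => h j (by omega)
    by_cases h2 : (A e m t (d - 1) : ℝ) ≤ c' * (m : ℝ) ^ (d - 1)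
    · left
      have h3 := hst m (by omega) e he t h1 h2
      rw [Nat.sub_add_cancel (by omega : 1 ≤ d)] at h3
      refine hK m (by omega) e t hes ⟨d, le_rfl, h3.trans (neg_le_neg ?_)⟩
      exact mul_le_mul_of_nonneg_right (min_le_right _ _) (hpow d)
    · right
      intro j hj
      rcases Nat.lt_or_ge j (d - 1) with h3 | h3
      · exact (mul_le_mul_of_nonneg_right (min_le_left _ _) (hpow j)).trans (h1 j h3)
      · obtain rfl : j = d - 1 := by omega
        push Not at h2
        exact (mul_le_mul_of_nonneg_right (min_le_right _ _) (hpow _)).trans h2.le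

/-- A nonempty stair contains the power of the last variable. -/
private theorem last_mem {m d : ℕ} {N : Finset (Multiset ℕ)} {f : ℕ → ℕ → ℕ} (hN : Stair m d N f)
    (hm : 1 ≤ m) {v : Multiset ℕ} (hv : v ∈ N) :
    Multiset.replicate (Multiset.card v) (m - 1) ∈ N := by
  have key : ∀ k : ℕ, ∀ u : Multiset ℕ, u ∈ N → Multiset.card u = Multiset.card v →
      Multiset.card v ≤ u.count (m - 1) + k → Multiset.replicate (Multiset.card v) (m - 1) ∈ N := by
    intro k
    induction k with
    | zero =>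
      intro u hu hc hk
      have h1 : Multiset.replicate (Multiset.card v) (m - 1) ≤ u :=
        Multiset.le_count_iff_replicate_le.1 (by omega)
      exact hN.div u hu _ h1
    | succ k ih =>
      intro u hu hc hk
      by_cases h : ∀ x ∈ u, x = m - 1
      · have h1 : u = Multiset.replicate (Multiset.card v) (m - 1) :=
          Multiset.eq_replicate.2 ⟨hc, h⟩
        rw [← h1]
        exact hu
      · push Not at h
        obtain ⟨x, hx, hx1⟩ := h
        have hxm := hN.lt u hu x hx
        have h1 := hN.up u hu x hx (m - 1) (by omega) (by omega)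
        refine ih _ h1 ?_ ?_
        · rw [Multiset.card_cons, Multiset.card_erase_of_mem hx, ← hc]
          have := Multiset.card_pos_iff_exists_mem.2 ⟨x, hx⟩
          exact Nat.succ_pred_eq_of_pos this
        · rw [Multiset.count_cons_self, Multiset.count_erase_of_ne (Ne.symm hx1)]
          omega
  exact key (Multiset.card v) v hv rfl (by omega)

theorem Sys_small {d : ℕ} {e : ℕ → ℕ} {F : ℕ → ℕ → ℕ → ℕ} (hF : Sys d e F) (_he : ∀ s, 2 ≤ e s)
    (m : ℕ) (hm : 1 ≤ m) (t : ℕ) (ht : ∀ s < t, e s ≤ d) : F m t d = 0 ∨ F m t d + t ≤ m ^ d := by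
  induction t with
  | zero =>
    right
    rw [hF.zero m d le_rfl, Nat.add_zero]
    exact multichoose_le_pow m d
  | succ t ih =>
    obtain ⟨N, hN, hF'⟩ := hF.stair m t hm
    have h1 : (lay N m d).card = F m t d := hN.cnt m le_rfl d le_rfl
    have h2 := hF' d le_rfl
    rcases Nat.eq_zero_or_pos (F m (t + 1) d) with h0 | h0
    · exact Or.inl h0
    right
    have h3 : F m (t + 1) d ≤ F m t d := by
      rw [h2, ← h1]
      exact card_filter_le _ _
    obtain ⟨v, hv⟩ := card_pos.1 (by rw [h1]; omega : 0 < (lay N m d).card)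
    have hv' := mem_lay.1 hv
    have h4 := last_mem hN hm hv'.1
    rw [hv'.2.1] at h4
    have h5 : F m (t + 1) d < F m t d := by
      rw [h2, ← h1]
      refine card_lt_card ?_
      refine filter_ssubset.2 ⟨Multiset.replicate d (m - 1), ?_, ?_⟩
      · rw [mem_lay]
        refine ⟨h4, Multiset.card_replicate _ _, fun x hx => ?_⟩
        have := Multiset.eq_of_mem_replicate hx
        omega
      · rw [Multiset.count_replicate_self]
        have := ht t (by omega)
        omega
    rcases ih fun s hs => ht s (by omega) with h6 | h6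
    · omega
    · omega

theorem A_abs {e : ℕ → ℕ} (he : ∀ s, 2 ≤ e s) (m t j : ℕ) : |A e m t j| ≤ ((m : ℤ) + t) ^ j := by
  induction t generalizing j with
  | zero =>
    rw [A_zero, abs_of_nonneg (Int.natCast_nonneg _)]
    push_cast
    rw [add_zero]
    exact_mod_cast multichoose_le_pow m j
  | succ t ih =>
    rw [A_succ]
    set x : ℤ := (m : ℤ) + t with hx
    have hx0 : 0 ≤ x := by positivity
    have hx1 : ((m : ℤ) + ((t + 1 : ℕ) : ℤ)) = x + 1 := by
      rw [hx]
      push_cast
      ring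
    rw [hx1]
    have h1 := ih j
    split_ifs with h
    · have h2 := ih (j - e t)
      have h3 := he t
      have h4 : x ^ j + x ^ (j - e t) ≤ (x + 1) ^ j := by
        obtain ⟨i, hi⟩ : ∃ i, j = i + 1 := ⟨j - 1, by omega⟩
        have h5 : x ^ (j - e t) ≤ (x + 1) ^ i := by
          calc x ^ (j - e t) ≤ (x + 1) ^ (j - e t) := pow_le_pow_left₀ hx0 (by linarith) _
            _ ≤ (x + 1) ^ i := pow_le_pow_right₀ (by linarith) (by omega)
        have h6 : x ^ j ≤ x * (x + 1) ^ i := by
          rw [hi, pow_succ, mul_comm]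
          exact mul_le_mul_of_nonneg_left (pow_le_pow_left₀ hx0 (by linarith) _) hx0
        calc x ^ j + x ^ (j - e t) ≤ x * (x + 1) ^ i + (x + 1) ^ i := add_le_add h6 h5
          _ = (x + 1) ^ j := by rw [hi]; ring
      calc |A e m t j - A e m t (j - e t)| ≤ |A e m t j| + |A e m t (j - e t)| := abs_sub _ _
        _ ≤ x ^ j + x ^ (j - e t) := add_le_add h1 h2
        _ ≤ (x + 1) ^ j := h4
    · rw [sub_zero]
      exact h1.trans (pow_le_pow_left₀ hx0 (by linarith) _)

end Pool.Agent.XE
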