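import Pool.Agent.XD.Comb.P

/-!
# XE, module G: the densities decrease strictly

`gain`: see note 4139 (2).  Induction on `j`; `kappa_1 = ω, kappa_(j+1) = ω kappa_j / 8`.
* `j = 1`: `D = {0, …, k - 1}` (`Gn.one`: all variables are in `N`).
* `j → j + 1`: `DD l = {v ∈ lay N (l + 1) j | l ::ₘ v ∈ D}` as in `Pool.Agent.XD.density` (closed and nested, for
  `τ (j + 1) ≤ l`).  Let `x` be the maximum of `ρ l = |DD l| / f (l + 1) j` over `i - s ≤ l < i`, attained at `l'`.
  `ρ (l' - s) ≥ x (1 - C ε + κ (1 - x))` (induction, nesting), `ρ l ≥ (1 - j ε) ρ (l' - s)` for `τ (j + 1) ≤ l < i - 2 s`,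
  `ρ l ≥ (1 - j ε) x` for `i - 2 s ≤ l < i - s`, `f (i - 2 s) (j + 1) ≥ f (i - s) (j + 1) / 2`,
  `f (τ (j + 1)) (j + 1) ≤ ε f (τ (j + 2)) (j + 1) ≤ ε f (i - 2 s) (j + 1)`.
  The numbers: `avg_gain`.
-/

set_option autoImplicit false

namespace Pool.Agent.XE

open Finset Pool.Agent.XD

/-- The numbers near `m`. -/
structure Gn (m d s : ℕ) (f : ℕ → ℕ → ℕ) (τ : ℕ → ℕ) (ω : ℝ) : Prop where
  one : ∀ i ≤ m, f i 1 = i
  spos : 1 ≤ s
  thr : ∀ j, 1 ≤ j → j < d → τ j + (d + 3) * s + 2 ≤ m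
  half : ∀ j, 1 ≤ j → j < d → ∀ i, m ≤ i + (d + 1) * s + 1 → i ≤ m →
    (f (i - s) j : ℝ) ≤ 2 * (f (i - 2 * s) j : ℝ)
  incr : ∀ j, 1 ≤ j → j < d → ∀ i, m ≤ i + (d + 1) * s + 1 → i ≤ m →
    ω * (f i j : ℝ) ≤ (f i j : ℝ) - (f (i - s) j : ℝ)
  half1 : ∀ j, 1 ≤ j → j < d → (f (m - 1) j : ℝ) ≤ 2 * (f (m - 1 - s) j : ℝ)

/-- The density of `D` in the variables `< i`, degree `j`. -/
noncomputable def den (f : ℕ → ℕ → ℕ) (D : Finset (Multiset ℕ)) (i j : ℕ) : ℝ :=
  ((D.filter fun v => ∀ x ∈ v, x < i).card : ℝ) / (f i j : ℝ)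

/-- The numbers in the induction step: `r' = r(i - s)`, `r = r(i)`, `A = f (i - s) / f i`, `x` the maximum of the
densities of the last sections, `y = x (1 - C ε + κ (1 - x))` a lower bound for the earlier ones, `w ≥ 1/2` the weight. -/
theorem avg_gain {A r r' x w κ c ω : ℝ} (hκ : 0 ≤ κ) (hκ1 : κ ≤ 1 / 2) (hc : 0 ≤ c) (hc1 : c ≤ 1 / 4)
    (hω : 0 < ω) (hω1 : ω ≤ 1) (hA : A ≤ 1 - ω) (hA0 : 0 ≤ A) (hx : 0 ≤ x) (hx1 : x ≤ 1)
    (hr : 0 ≤ r) (hr1 : r ≤ 1) (_hr'1 : r' ≤ 1) (hw : 1 / 2 ≤ w) (hw1 : w ≤ 1)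
    (h1 : (1 - c) * (w * (x * (1 - c + κ * (1 - x))) + (1 - w) * x) ≤ r')
    (h2 : r ≤ A * r' + (1 - A) * x) :
    r * (1 - 2 * c + ω * κ / 8 * (1 - r)) ≤ r' := by
  have hx1' : 0 ≤ 1 - x := by linarith
  have hr1' : 0 ≤ 1 - r := by linarith
  have hxx : 0 ≤ κ * (1 - x) := mul_nonneg hκ hx1'
  have hx2 : 0 ≤ x * (κ * (1 - x)) := mul_nonneg hx hxx
  -- the lower bound for `r'`
  have hH : x * (1 - 2 * c + 3 * κ / 8 * (1 - x)) ≤ r' := by
    refine le_trans ?_ h1
    have e1 : (1 - c) * (w * (x * (1 - c + κ * (1 - x))) + (1 - w) * x) =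
        (1 - c) * x * (1 - c * w + w * (κ * (1 - x))) := by ring
    have e2 : 1 - c + 1 / 2 * (κ * (1 - x)) ≤ 1 - c * w + w * (κ * (1 - x)) := by
      have a1 : c * w ≤ c * 1 := mul_le_mul_of_nonneg_left hw1 hc
      have a2 : 1 / 2 * (κ * (1 - x)) ≤ w * (κ * (1 - x)) := mul_le_mul_of_nonneg_right hw hxx
      linarith
    have e3 : 0 ≤ (1 - c) * x := mul_nonneg (by linarith) hx
    have e4 := mul_le_mul_of_nonneg_left e2 e3
    have e5 : (1 - 2 * c + 3 * κ / 8 * (1 - x)) ≤ (1 - c) * (1 - c + 1 / 2 * (κ * (1 - x))) := by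
      linarith only [mul_le_mul_of_nonneg_right hc1 hxx, mul_nonneg hc hc]
    have e6 := mul_le_mul_of_nonneg_left e5 hx
    rw [e1]
    calc x * (1 - 2 * c + 3 * κ / 8 * (1 - x)) ≤ x * ((1 - c) * (1 - c + 1 / 2 * (κ * (1 - x)))) := e6
      _ = (1 - c) * x * (1 - c + 1 / 2 * (κ * (1 - x))) := by ring
      _ ≤ _ := e4
  have hωκ : ω * κ ≤ κ := by
    have := mul_le_mul_of_nonneg_right hω1 hκ
    linarith
  have hωκ0 : 0 ≤ ω * κ := mul_nonneg hω.le hκ
  have hrr : 0 ≤ r * (1 - r) := mul_nonneg hr hr1'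
  rcases le_or_gt r x with hrx | hrx
  · -- `x ≥ r`
    have e1 : r * (1 - 2 * c + 3 * κ / 8 * (1 - r)) ≤ x * (1 - 2 * c + 3 * κ / 8 * (1 - x)) := by
      have : 0 ≤ (x - r) * (1 - 2 * c + 3 * κ / 8 * (1 - x - r)) := by
        apply mul_nonneg (by linarith)
        linarith only [hxx, hc1, hκ1, mul_nonneg (sub_nonneg.2 hκ) (sub_nonneg.2 hr1)]
      linarith only [this]
    have e2 : ω * κ / 8 * (r * (1 - r)) ≤ 3 * κ / 8 * (r * (1 - r)) :=
      mul_le_mul_of_nonneg_right (by linarith) hrr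
    linarith only [e2, e1, hH]
  · -- `x < r`
    have h3 : r < r' := by
      by_contra h
      push Not at h
      have a1 : A * r' ≤ A * r := mul_le_mul_of_nonneg_left h hA0
      have a2 : (1 - A) * x < (1 - A) * r := mul_lt_mul_of_pos_left hrx (by linarith)
      linarith only [a2, a1, h2]
    have h4 : ω * (r' - x) ≤ r' - r := by
      have a1 : ω * (r' - x) ≤ (1 - A) * (r' - x) :=
        mul_le_mul_of_nonneg_right (by linarith) (by linarith)
      linarith only [a1, h2]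
    rcases le_or_gt x (r / 2) with hx2' | hx2'
    · have a1 : ω * (r / 2) ≤ ω * (r' - x) := mul_le_mul_of_nonneg_left (by linarith) hω.le
      have a2 : ω * κ / 8 * (r * (1 - r)) ≤ ω * (r / 2) := by
        have b1 : r * (1 - r) ≤ r := by (refine le_of_not_gt fun hng => ?_; linarith only [mul_nonneg (sub_nonneg.2 hr) (sub_nonneg.2 hr),
                                          mul_pos (sub_pos.2 hng) (sub_pos.2 h3),
                                          mul_pos (sub_pos.2 hng) (sub_pos.2 hrx),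
                                          mul_nonneg (sub_nonneg.2 hng.le) (sub_nonneg.2 _hr'1),
                                          mul_nonneg (sub_nonneg.2 hng.le) (sub_nonneg.2 hx)])
        have b2 : ω * κ / 8 ≤ ω / 2 := by (refine le_of_not_gt fun hng => ?_; linarith only [hω,
                                            mul_nonneg (sub_nonneg.2 hκ1) (sub_nonneg.2 hω.le),
                                            mul_nonneg (sub_nonneg.2 hng.le) (sub_nonneg.2 hωκ),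
                                            mul_pos (sub_pos.2 hng) (sub_pos.2 hω),
                                            mul_nonneg (sub_nonneg.2 hng.le) (sub_nonneg.2 hκ1),
                                            mul_pos (sub_pos.2 hng) (sub_pos.2 hng)])
        calc ω * κ / 8 * (r * (1 - r)) ≤ ω / 2 * (r * (1 - r)) := mul_le_mul_of_nonneg_right b2 hrr
          _ ≤ ω / 2 * r := mul_le_mul_of_nonneg_left b1 (by linarith)
          _ = ω * (r / 2) := by ring
      have a3 : 0 ≤ r * c := mul_nonneg hr hc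
      linarith only [a3, a2, a1, h4]
    · have a1 : -(2 * c * r) + 3 * κ / 16 * (r * (1 - r)) ≤ r' - x := by
        have b1 : c * x ≤ c * r := mul_le_mul_of_nonneg_left hrx.le hc
        have b2 : r / 2 * (1 - r) ≤ x * (1 - x) := by
          calc r / 2 * (1 - r) ≤ x * (1 - r) := mul_le_mul_of_nonneg_right hx2'.le hr1'
            _ ≤ x * (1 - x) := mul_le_mul_of_nonneg_left (by linarith) hx
        have b3 : 3 * κ / 8 * (r / 2 * (1 - r)) ≤ 3 * κ / 8 * (x * (1 - x)) :=
          mul_le_mul_of_nonneg_left b2 (by linarith)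
        linarith only [b3, b1, hH]
      have a2 := mul_le_mul_of_nonneg_left a1 hω.le
      have a3 : ω * (c * r) ≤ 1 * (c * r) := mul_le_mul_of_nonneg_right hω1 (mul_nonneg hc hr)
      have a4 : 0 ≤ ω * κ * (r * (1 - r)) := mul_nonneg hωκ0 hrr
      linarith only [a4, a3, a2, h4]

variable {m d s : ℕ} {N : Finset (Multiset ℕ)} {f : ℕ → ℕ → ℕ} {τ : ℕ → ℕ} {ε ω : ℝ}

private theorem g_card_le (hN : Stair m d N f) {i i0 j : ℕ} (hi : i ≤ m) (hj : j ≤ d)
    {D : Finset (Multiset ℕ)} (hD : D ⊆ lay N i0 j) :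
    (D.filter fun v => ∀ x ∈ v, x < i).card ≤ f i j := by
  rw [← hN.cnt i hi j hj]
  refine card_le_card fun v hv => ?_
  rw [mem_filter] at hv
  have h1 := mem_lay.1 (hD hv.1)
  exact mem_lay.2 ⟨h1.1, h1.2.1, hv.2⟩

private theorem g_den_nonneg (f : ℕ → ℕ → ℕ) (D : Finset (Multiset ℕ)) (i j : ℕ) :
    0 ≤ den f D i j := by
  unfold den
  positivity

private theorem g_den_le_one (hN : Stair m d N f) {i i0 j : ℕ} (hi : i ≤ m) (hj : j ≤ d)
    {D : Finset (Multiset ℕ)} (hD : D ⊆ lay N i0 j) : den f D i j ≤ 1 := by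
  unfold den
  refine div_le_one_of_le₀ ?_ (Nat.cast_nonneg _)
  exact_mod_cast g_card_le hN hi hj hD

private theorem g_den_mul (hN : Stair m d N f) {i i0 j : ℕ} (hi : i ≤ m) (hj : j ≤ d)
    {D : Finset (Multiset ℕ)} (hD : D ⊆ lay N i0 j) :
    den f D i j * (f i j : ℝ) = ((D.filter fun v => ∀ x ∈ v, x < i).card : ℝ) := by
  unfold den
  rcases Nat.eq_zero_or_pos (f i j) with h | h
  · have h1 := g_card_le hN hi hj hD
    rw [h] at h1
    rw [h, Nat.le_zero.1 h1]
    simp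
  · have h1 : (f i j : ℝ) ≠ 0 := by
      have : (0 : ℝ) < f i j := by exact_mod_cast h
      exact this.ne'
    rw [div_mul_cancel₀ _ h1]

private theorem g_fpos (hT : Thr m d f τ ε) (hG : Gn m d s f τ ω) {j : ℕ} (hj1 : 1 ≤ j)
    (hj : j < d) : ∀ i, τ j < i → i ≤ m → 0 < f i j := by
  induction j, hj1 using Nat.le_induction with
  | base =>
    intro i hi him
    rw [hG.one i him]
    omega
  | succ j hj1 ih =>
    intro i hi him
    obtain ⟨i, rfl⟩ : ∃ i', i = i' + 1 := ⟨i - 1, by omega⟩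
    have h1 := hT.mono j hj1 hj
    have h2 := ih (by omega) (i + 1) (by omega) him
    rw [hT.recu j hj i (by omega) (by omega)]
    omega

private theorem g_split {N D : Finset (Multiset ℕ)} {i j l : ℕ}
    (hdiv : ∀ v ∈ N, ∀ u, u ≤ v → u ∈ N) (hD : D ⊆ lay N i (j + 1)) :
    (D.filter fun v => ∀ x ∈ v, x < l + 1).card = (D.filter fun v => ∀ x ∈ v, x < l).card +
      ((lay N (l + 1) j).filter fun v => l ::ₘ v ∈ D).card := by
  classical
  rw [← Finset.card_filter_add_card_filter_not (s := D.filter fun v => ∀ x ∈ v, x < l + 1)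
    (p := fun v => l ∉ v)]
  congr 1
  · congr 1
    ext v
    rw [mem_filter, mem_filter, mem_filter]
    constructor
    · rintro ⟨⟨h1, h2⟩, h3⟩
      refine ⟨h1, fun x hx => ?_⟩
      have h4 := h2 x hx
      have h5 : x ≠ l := fun h => h3 (h ▸ hx)
      omega
    · rintro ⟨h1, h2⟩
      exact ⟨⟨h1, fun x hx => (h2 x hx).trans (Nat.lt_succ_self l)⟩,
        fun h => lt_irrefl l (h2 l h)⟩
  · refine card_nbij' (fun w => w.erase l) (fun v => l ::ₘ v) ?_ ?_ ?_ ?_
    · intro w hw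
      rw [mem_coe, mem_filter, mem_filter, not_not] at hw
      obtain ⟨⟨h1, h2⟩, h3⟩ := hw
      have h4 := mem_lay.1 (hD h1)
      rw [mem_coe, mem_filter, mem_lay]
      refine ⟨⟨hdiv w h4.1 _ (Multiset.erase_le l w), ?_, fun x hx =>
        h2 x (Multiset.mem_of_mem_erase hx)⟩, ?_⟩
      · rw [Multiset.card_erase_of_mem h3, h4.2.1]
        rfl
      · rw [Multiset.cons_erase h3]
        exact h1
    · intro v hv
      rw [mem_coe, mem_filter, mem_lay] at hv
      rw [mem_coe, mem_filter, mem_filter, not_not]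
      refine ⟨⟨hv.2, fun x hx => ?_⟩, Multiset.mem_cons_self l v⟩
      rcases Multiset.mem_cons.1 hx with rfl | hx
      · exact Nat.lt_succ_self x
      · exact hv.1.2.2 x hx
    · intro w hw
      rw [mem_coe, mem_filter, mem_filter, not_not] at hw
      exact Multiset.cons_erase hw.2
    · intro v _
      exact Multiset.erase_cons_head l v

/-- sums of the cardinalities -/
private theorem g_sum {N D : Finset (Multiset ℕ)} {i j : ℕ}
    (hdiv : ∀ v ∈ N, ∀ u, u ≤ v → u ∈ N) (hD : D ⊆ lay N i (j + 1)) {k k' : ℕ} (hk : k ≤ k') :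
    ((D.filter fun v => ∀ x ∈ v, x < k').card : ℝ) = ((D.filter fun v => ∀ x ∈ v, x < k).card : ℝ) +
      ∑ l ∈ Ico k k', (((lay N (l + 1) j).filter fun v => l ::ₘ v ∈ D).card : ℝ) := by
  induction k', hk using Nat.le_induction with
  | base => rw [Ico_self, sum_empty, add_zero]
  | succ k' hk ih =>
    rw [g_split hdiv hD, sum_Ico_succ_top hk, Nat.cast_add, ih, add_assoc]

/-- sums of the numbers -/
private theorem g_num (hT : Thr m d f τ ε) {j : ℕ} (hj : j + 1 < d) {k k' : ℕ}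
    (hk : τ (j + 1) ≤ k) (hkk : k ≤ k') (hkm : k' ≤ m) :
    (f k' (j + 1) : ℝ) = (f k (j + 1) : ℝ) + ∑ l ∈ Ico k k', (f (l + 1) j : ℝ) := by
  induction k', hkk using Nat.le_induction with
  | base => simp
  | succ k' hk' ih =>
    rw [hT.recu j hj k' (hk.trans hk') hkm, Nat.cast_add, ih (Nat.le_of_succ_le hkm),
      sum_Ico_succ_top hk', add_assoc]

/-- the case `j = 1` -/
private theorem g_base (hN : Stair m d N f) (hG : Gn m d s f τ ω) (hω : 0 < ω) (hω1 : ω ≤ 1)
    (hd : 2 < d) (i : ℕ) (hi : m ≤ i + 1 + (d - 1) * s) (him : i ≤ m) (D : Finset (Multiset ℕ))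
    (hD : D ⊆ lay N i 1) (hDn : Dn N D) :
    den f D i 1 * (1 + ω / 8 * (1 - den f D i 1)) ≤ den f D (i - s) 1 := by
  classical
  have hs1 := hG.spos
  have hthr := hG.thr 1 le_rfl (by omega)
  have hds : (d - 1) * s + 4 * s = (d + 3) * s := by
    obtain ⟨d, rfl⟩ : ∃ d', d = d' + 1 := ⟨d - 1, by omega⟩
    rw [Nat.add_sub_cancel]
    ring
  have his : s < i := by omega
  have hds' : (d - 1) * s ≤ (d + 1) * s := Nat.mul_le_mul_right _ (by omega)
  have hinc := hG.incr 1 le_rfl (by omega) i (by omega) him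
  rw [hG.one i him, hG.one (i - s) (by omega)] at hinc
  have hr0 := g_den_nonneg f D i 1
  have hr1 := g_den_le_one hN him (by omega) hD
  set r := den f D i 1 with hr
  have hiR : (0 : ℝ) < i := by exact_mod_cast (by omega : 0 < i)
  have hisR : (0 : ℝ) < ((i - s : ℕ) : ℝ) := by exact_mod_cast (by omega : 0 < i - s)
  by_cases hex : ∃ v ∈ D, ∃ x ∈ v, i - s ≤ x
  · obtain ⟨v, hv, x, hx, hxi⟩ := hex
    have hv1 := mem_lay.1 (hD hv)
    have hvx : v = {x} := by
      obtain ⟨y, rfl⟩ := Multiset.card_eq_one.1 hv1.2.1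
      rw [Multiset.mem_singleton] at hx
      rw [hx]
    subst hvx
    have hxm : x < m := by
      have := hv1.2.2 x hx
      omega
    -- all the variables are in `N`
    have hsing : ∀ y < m, ({y} : Multiset ℕ) ∈ N := by
      have h1 : lay N m 1 ⊆ (range m).image fun y => ({y} : Multiset ℕ) := by
        intro w hw
        have hw1 := mem_lay.1 hw
        obtain ⟨y, rfl⟩ := Multiset.card_eq_one.1 hw1.2.1
        rw [mem_image]
        exact ⟨y, mem_range.2 (hw1.2.2 y (Multiset.mem_singleton_self y)), rfl⟩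
      have h2 : lay N m 1 = (range m).image fun y => ({y} : Multiset ℕ) := by
        refine eq_of_subset_of_card_le h1 ?_
        rw [hN.cnt m le_rfl 1 (by omega), hG.one m le_rfl]
        exact card_image_le.trans (by rw [card_range])
      intro y hy
      have h3 : ({y} : Multiset ℕ) ∈ lay N m 1 := by
        rw [h2, mem_image]
        exact ⟨y, mem_range.2 hy, rfl⟩
      exact (mem_lay.1 h3).1
    have h1 : (range (i - s)).image (fun y => ({y} : Multiset ℕ)) ⊆
        D.filter fun v => ∀ x ∈ v, x < i - s := by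
      intro w hw
      rw [mem_image] at hw
      obtain ⟨y, hy, rfl⟩ := hw
      rw [mem_range] at hy
      rw [mem_filter]
      refine ⟨?_, fun z hz => ?_⟩
      · have h2 := hDn {x} hv x hx y (by omega)
        rw [show ({x} : Multiset ℕ).erase x = 0 from by simp] at h2
        exact h2 (hsing y (by omega))
      · rw [Multiset.mem_singleton] at hz
        omega
    have h2 := card_le_card h1
    rw [card_image_of_injective _ (fun a b hab => Multiset.singleton_inj.1 hab), card_range] at h2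
    have h3 : 1 ≤ den f D (i - s) 1 := by
      unfold den
      rw [hG.one (i - s) (by omega), le_div_iff₀ hisR, one_mul]
      exact_mod_cast h2
    have h4 : 0 ≤ (1 - r) * (1 - ω / 8 * r) := by
      apply mul_nonneg (by linarith)
      linarith only [hω1, mul_nonneg (sub_nonneg.2 hω.le) (sub_nonneg.2 hr1)]
    linarith only [h4, h3]
  · push Not at hex
    have h1 : (D.filter fun v => ∀ x ∈ v, x < i - s) = D := filter_true_of_mem hex
    have h2 : (D.filter fun v => ∀ x ∈ v, x < i) = D :=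
      filter_true_of_mem fun v hv => (mem_lay.1 (hD hv)).2.2
    have h3 : r * (i : ℝ) = (D.card : ℝ) := by
      have := g_den_mul hN him (by omega : 1 ≤ d) hD
      rw [hG.one i him, h2] at this
      exact this
    have h4 : den f D (i - s) 1 = (D.card : ℝ) / ((i - s : ℕ) : ℝ) := by
      unfold den
      rw [hG.one (i - s) (by omega), h1]
    rw [h4, le_div_iff₀ hisR, ← h3]
    have h5 : (1 + ω / 8 * (1 - r)) * ((i - s : ℕ) : ℝ) ≤ (i : ℝ) := by
      have h6 : (1 + ω / 8 * (1 - r)) ≤ 1 + ω := by linarith only [hω,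
                                                      mul_nonneg (sub_nonneg.2 hω.le) (sub_nonneg.2 hr0)]
      have h7 : (1 + ω) * ((i - s : ℕ) : ℝ) ≤ (1 + ω) * ((1 - ω) * i) :=
        mul_le_mul_of_nonneg_left (by linarith) (by linarith)
      have h8 : (1 + ω) * ((1 - ω) * (i : ℝ)) ≤ i := by linarith only [mul_nonneg (mul_nonneg hω.le hω.le) hiR.le]
      exact (mul_le_mul_of_nonneg_right h6 hisR.le).trans (h7.trans h8)
    calc r * (1 + ω / 8 * (1 - r)) * ((i - s : ℕ) : ℝ)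
        = r * ((1 + ω / 8 * (1 - r)) * ((i - s : ℕ) : ℝ)) := by ring
      _ ≤ r * (i : ℝ) := mul_le_mul_of_nonneg_left h5 hr0

/-- the induction step -/
private theorem g_step (hN : Stair m d N f) (hT : Thr m d f τ ε) (hG : Gn m d s f τ ω)
    (hω : 0 < ω) (hω1 : ω ≤ 1) (hε : 0 ≤ ε) {κ C : ℝ} (hκ : 0 ≤ κ) (hκ1 : κ ≤ 1 / 2)
    {j : ℕ} (hj1 : 1 ≤ j) (hj : j + 2 < d) (hC : (j : ℝ) + 1 ≤ C)
    (ih : ∀ i, m ≤ i + 1 + (d - j) * s → i ≤ m → ∀ D ⊆ lay N i j, Dn N D →
      den f D i j * (1 - C * ε + κ * (1 - den f D i j)) ≤ den f D (i - s) j)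
    (hc : C * ε ≤ 1 / 4)
    (i : ℕ) (hi : m ≤ i + 1 + (d - (j + 1)) * s) (him : i ≤ m) (D : Finset (Multiset ℕ))
    (hD : D ⊆ lay N i (j + 1)) (hDn : Dn N D) :
    den f D i (j + 1) * (1 - 2 * (C * ε) + ω * κ / 8 * (1 - den f D i (j + 1))) ≤
      den f D (i - s) (j + 1) := by
  classical
  have hs1 := hG.spos
  have hthr := hG.thr (j + 1) (by omega) (by omega)
  have hthr2 := hG.thr (j + 1 + 1) (by omega) (by omega)
  have hmon := hT.mono (j + 1) (by omega) (by omega)
  obtain ⟨e, rfl⟩ : ∃ e, d = e + j + 3 := ⟨d - j - 3, by omega⟩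
  have hds1 : (e + j + 3 - (j + 1)) * s = e * s + 2 * s := by
    rw [show e + j + 3 - (j + 1) = e + 2 by omega]
    ring
  have hds2 : (e + j + 3 - j) * s = e * s + 3 * s := by
    rw [show e + j + 3 - j = e + 3 by omega]
    ring
  have hds3 : (e + j + 3 + 3) * s = e * s + j * s + 6 * s := by ring
  have hds4 : (e + j + 3 + 1) * s = e * s + j * s + 4 * s := by ring
  rw [hds1] at hi
  rw [hds2] at ih
  rw [hds3] at hthr hthr2
  have hjs : s ≤ j * s := Nat.le_mul_of_pos_left s hj1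
  -- positions
  set T := τ (j + 1) with hTdef
  have hT2 : T + 2 * s < i := by omega
  have hT22 : τ (j + 1 + 1) + 2 * s < i := by omega
  have hi2 : i - 2 * s = i - s - s := by omega
  have hTi2 : T ≤ i - 2 * s := by omega
  have hii : i - 2 * s ≤ i - s := by omega
  have hiis : i - s ≤ i := by omega
  -- the numbers
  have hc0 : 0 ≤ C * ε := mul_nonneg (by have : (0 : ℝ) ≤ j := Nat.cast_nonneg _; linarith) hε
  have hjε : (j : ℝ) * ε + ε ≤ C * ε := by
    have := mul_le_mul_of_nonneg_right hC hε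
    linarith
  have hjε0 : 0 ≤ (j : ℝ) * ε := mul_nonneg (Nat.cast_nonneg _) hε
  have hf0 : (0 : ℝ) < f i (j + 1) := by
    exact_mod_cast g_fpos hT hG (by omega) (by omega) i (by omega) him
  have hf1 : (0 : ℝ) < f (i - s) (j + 1) := by
    exact_mod_cast g_fpos hT hG (by omega) (by omega) (i - s) (by omega) (by omega)
  have hhalf := hG.half (j + 1) (by omega) (by omega) i (by omega) him
  have hincr := hG.incr (j + 1) (by omega) (by omega) i (by omega) him
  -- the sections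
  set DD : ℕ → Finset (Multiset ℕ) := fun l => (lay N (l + 1) j).filter fun v => l ::ₘ v ∈ D
    with hDD
  have hDl : ∀ l, DD l ⊆ lay N (l + 1) j := fun l => filter_subset _ _
  have hDDn : ∀ l, T ≤ l → l < i → Dn N (DD l) := by
    intro l hTl hli v hv b hb a hab haN
    have hv1 := mem_filter.1 hv
    have hv2 := mem_lay.1 hv1.1
    have h1 : a ::ₘ v.erase b ∈ lay N (l + 1) j := by
      rw [mem_lay]
      refine ⟨haN, ?_, fun x hx => ?_⟩
      · rw [Multiset.card_cons, Multiset.card_erase_of_mem hb, ← hv2.2.1]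
        have : 0 < Multiset.card v := Multiset.card_pos_iff_exists_mem.2 ⟨b, hb⟩
        exact Nat.succ_pred_eq_of_pos this
      · rcases Multiset.mem_cons.1 hx with rfl | hx
        · exact hab.trans (hv2.2.2 b hb)
        · exact hv2.2.2 x (Multiset.mem_of_mem_erase hx)
    refine mem_filter.2 ⟨h1, ?_⟩
    have h2 : (l ::ₘ v).erase b = l ::ₘ v.erase b := Multiset.erase_cons_tail_of_mem hb
    have h3 := hDn (l ::ₘ v) hv1.2 b (Multiset.mem_cons_of_mem hb) a hab
    rw [h2, Multiset.cons_swap] at h3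
    exact h3 (push hN hT (by omega) hTl (by omega) h1)
  have hincl : ∀ l l', T ≤ l → l < l' → l' < i →
      ((DD l').filter fun v => ∀ x ∈ v, x < l + 1) ⊆ DD l := by
    intro l l' hTl hll hli v hv
    rw [mem_filter] at hv
    have hv1 := mem_filter.1 hv.1
    have hv2 := mem_lay.1 hv1.1
    have h1 : v ∈ lay N (l + 1) j := mem_lay.2 ⟨hv2.1, hv2.2.1, hv.2⟩
    refine mem_filter.2 ⟨h1, ?_⟩
    have h3 := hDn (l' ::ₘ v) hv1.2 l' (Multiset.mem_cons_self l' v) l hll
    rw [Multiset.erase_cons_head] at h3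
    exact h3 (push hN hT (by omega) hTl (by omega) h1)
  -- the maximum
  obtain ⟨l', hl', hmax⟩ := exists_max_image (Ico (i - s) i)
    (fun l => den f (DD l) (l + 1) j) (by rw [nonempty_Ico]; omega)
  rw [mem_Ico] at hl'
  set x := den f (DD l') (l' + 1) j with hx
  have hx0 : 0 ≤ x := g_den_nonneg _ _ _ _
  have hx1 : x ≤ 1 := g_den_le_one hN (by omega) (by omega) (hDl l')
  have hself : ∀ l, ((DD l).filter fun v => ∀ x ∈ v, x < l + 1) = DD l := fun l =>
    filter_true_of_mem fun v hv => (mem_lay.1 (hDl l hv)).2.2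
  have hcardDD : ∀ l, l < m → den f (DD l) (l + 1) j * (f (l + 1) j : ℝ) = ((DD l).card : ℝ) := by
    intro l hl
    have h1 := g_den_mul hN (i := l + 1) (by omega) (by omega) (hDl l)
    rw [hself] at h1
    exact h1
  have hfl' : (0 : ℝ) < f (l' + 1) j := by
    have h1 : τ j ≤ T := hT.mono j hj1 (by omega)
    exact_mod_cast g_fpos hT hG hj1 (by omega) (l' + 1) (by omega) (by omega)
  -- (a) the last sections
  have ha : ∀ l ∈ Ico (i - s) i, ((DD l).card : ℝ) ≤ x * (f (l + 1) j : ℝ) := by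
    intro l hl
    have h1 := hmax l hl
    rw [mem_Ico] at hl
    rw [← hcardDD l (by omega)]
    exact mul_le_mul_of_nonneg_right h1 (Nat.cast_nonneg _)
  -- (b) the sections before
  have hb : ∀ l ∈ Ico (i - 2 * s) (i - s),
      (1 - j * ε) * x * (f (l + 1) j : ℝ) ≤ ((DD l).card : ℝ) := by
    intro l hl
    rw [mem_Ico] at hl
    have h1 := density hN hT hε j (by omega) (l' + 1) (l + 1) (by omega) (by omega) (by omega)
      (DD l') (hDl l') (hDDn l' (by omega) hl'.2)
    have h2 : (((DD l').filter fun v => ∀ x ∈ v, x < l + 1).card : ℝ) ≤ ((DD l).card : ℝ) := by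
      exact_mod_cast card_le_card (hincl l l' (by omega) (by omega) hl'.2)
    rw [← hcardDD l' (by omega)] at h1
    have h3 : (1 - j * ε) * x * (f (l + 1) j : ℝ) * (f (l' + 1) j : ℝ) ≤
        ((DD l).card : ℝ) * (f (l' + 1) j : ℝ) := by
      calc (1 - j * ε) * x * (f (l + 1) j : ℝ) * (f (l' + 1) j : ℝ)
          = (1 - j * ε) * (x * (f (l' + 1) j : ℝ)) * (f (l + 1) j : ℝ) := by ring
        _ ≤ _ := h1
        _ ≤ _ := mul_le_mul_of_nonneg_right h2 (Nat.cast_nonneg _)
    exact le_of_mul_le_mul_right h3 hfl'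
  -- (c) the earlier sections
  set y := x * (1 - C * ε + κ * (1 - x)) with hy
  have hy0 : 0 ≤ y := by
    apply mul_nonneg hx0
    have : 0 ≤ κ * (1 - x) := mul_nonneg hκ (by linarith)
    linarith
  have hfy : (0 : ℝ) < f (l' + 1 - s) j := by
    have h1 : τ j ≤ T := hT.mono j hj1 (by omega)
    exact_mod_cast g_fpos hT hG hj1 (by omega) (l' + 1 - s) (by omega) (by omega)
  have hcc : ∀ l ∈ Ico T (i - 2 * s),
      (1 - j * ε) * y * (f (l + 1) j : ℝ) ≤ ((DD l).card : ℝ) := by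
    intro l hl
    rw [mem_Ico] at hl
    have h0 := ih (l' + 1) (by omega) (by omega) (DD l') (hDl l') (hDDn l' (by omega) hl'.2)
    rw [← hx, ← hy] at h0
    set E := (DD l').filter fun v => ∀ x ∈ v, x < l' + 1 - s with hE
    have hEl : E ⊆ lay N (l' + 1 - s) j := by
      intro v hv
      rw [hE, mem_filter] at hv
      have h1 := mem_lay.1 (hDl l' hv.1)
      exact mem_lay.2 ⟨h1.1, h1.2.1, hv.2⟩
    have hEn : Dn N E := by
      intro v hv b hb a hab haN
      rw [hE, mem_filter] at hv ⊢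
      refine ⟨hDDn l' (by omega) hl'.2 v hv.1 b hb a hab haN, fun x hx => ?_⟩
      rcases Multiset.mem_cons.1 hx with rfl | hx
      · exact hab.trans (hv.2 b hb)
      · exact hv.2 x (Multiset.mem_of_mem_erase hx)
    have h1 := density hN hT hε j (by omega) (l' + 1 - s) (l + 1) (by omega) (by omega) (by omega)
      E hEl hEn
    have h2 : ((E.filter fun v => ∀ x ∈ v, x < l + 1).card : ℝ) ≤ ((DD l).card : ℝ) := by
      refine le_trans ?_ (Nat.cast_le.2 (card_le_card (hincl l l' (by omega) (by omega) hl'.2)))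
      refine Nat.cast_le.2 (card_le_card ?_)
      exact filter_subset_filter _ (filter_subset _ _)
    have h4 : (E.card : ℝ) = den f (DD l') (l' + 1 - s) j * (f (l' + 1 - s) j : ℝ) :=
      (g_den_mul hN (by omega) (by omega) (hDl l')).symm
    have h5 : y * (f (l' + 1 - s) j : ℝ) ≤ (E.card : ℝ) := by
      rw [h4]
      exact mul_le_mul_of_nonneg_right h0 hfy.le
    have h3 : (1 - j * ε) * y * (f (l + 1) j : ℝ) * (f (l' + 1 - s) j : ℝ) ≤
        ((DD l).card : ℝ) * (f (l' + 1 - s) j : ℝ) := by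
      calc (1 - j * ε) * y * (f (l + 1) j : ℝ) * (f (l' + 1 - s) j : ℝ)
          = (1 - j * ε) * (f (l + 1) j : ℝ) * (y * (f (l' + 1 - s) j : ℝ)) := by ring
        _ ≤ (1 - j * ε) * (f (l + 1) j : ℝ) * (E.card : ℝ) :=
            mul_le_mul_of_nonneg_left h5 (mul_nonneg (by linarith) (Nat.cast_nonneg _))
        _ = (1 - j * ε) * (E.card : ℝ) * (f (l + 1) j : ℝ) := by ring
        _ ≤ _ := h1
        _ ≤ _ := mul_le_mul_of_nonneg_right h2 (Nat.cast_nonneg _)
    exact le_of_mul_le_mul_right h3 hfy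
  -- the sums
  have s1 := g_sum (N := N) (D := D) (i := i) (j := j) hN.div hD hiis
  have s2 := g_sum (N := N) (D := D) (i := i) (j := j) hN.div hD hii
  have s3 := g_sum (N := N) (D := D) (i := i) (j := j) hN.div hD hTi2
  have n1 := g_num hT (by omega : j + 1 < e + j + 3) (k := i - s) (k' := i) (by omega) hiis him
  have n2 := g_num hT (by omega : j + 1 < e + j + 3) (k := i - 2 * s) (k' := i - s) (by omega) hii (by omega)
  have n3 := g_num hT (by omega : j + 1 < e + j + 3) (k := T) (k' := i - 2 * s) le_rfl hTi2 (by omega)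
  have t1 := sum_le_sum ha
  rw [← mul_sum] at t1
  have t2 := sum_le_sum hb
  rw [← mul_sum] at t2
  have t3 := sum_le_sum hcc
  rw [← mul_sum] at t3
  set F0 : ℝ := (f i (j + 1) : ℝ) with hF0
  set F1 : ℝ := (f (i - s) (j + 1) : ℝ) with hF1
  set F2 : ℝ := (f (i - 2 * s) (j + 1) : ℝ) with hF2
  set F3 : ℝ := (f T (j + 1) : ℝ) with hF3
  have m0 := g_den_mul hN him (by omega : j + 1 ≤ e + j + 3) hD
  have m1 := g_den_mul hN (i := i - s) (by omega) (by omega : j + 1 ≤ e + j + 3) hD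
  rw [← hF0] at m0
  rw [← hF1] at m1
  have r0 := g_den_nonneg f D i (j + 1)
  have r1 := g_den_le_one hN him (by omega : j + 1 ≤ e + j + 3) hD
  have r'1 := g_den_le_one hN (i := i - s) (by omega) (by omega : j + 1 ≤ e + j + 3) hD
  set r := den f D i (j + 1) with hr
  set r' := den f D (i - s) (j + 1) with hr'
  have hF32 : F3 ≤ ε * F2 := by
    have h1 := hT.ratio (j + 1) (by omega) (by omega)
    have h2 : (f (τ (j + 1 + 1)) (j + 1) : ℝ) ≤ F2 := by
      rw [hF2]
      have : f (τ (j + 1 + 1)) (j + 1) ≤ f (i - 2 * s) (j + 1) := by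
        rw [← hN.cnt _ (by omega) (j + 1) (by omega), ← hN.cnt (i - 2 * s) (by omega) (j + 1) (by omega)]
        refine card_le_card fun v hv => ?_
        rw [mem_lay] at hv ⊢
        exact ⟨hv.1, hv.2.1, fun x hx => (hv.2.2 x hx).trans_le (by omega)⟩
      exact_mod_cast this
    exact h1.trans (mul_le_mul_of_nonneg_left h2 hε)
  have hF20 : 0 ≤ F2 := Nat.cast_nonneg _
  have hS2 : 0 ≤ F1 - F2 := by
    have : (0 : ℝ) ≤ ∑ l ∈ Ico (i - 2 * s) (i - s), (f (l + 1) j : ℝ) :=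
      sum_nonneg fun l _ => Nat.cast_nonneg _
    linarith
  have hS1 : 0 ≤ F0 - F1 := by
    have : (0 : ℝ) ≤ ∑ l ∈ Ico (i - s) i, (f (l + 1) j : ℝ) :=
      sum_nonneg fun l _ => Nat.cast_nonneg _
    linarith
  have P0 : (0 : ℝ) ≤ ((D.filter fun v => ∀ x ∈ v, x < T).card : ℝ) := Nat.cast_nonneg _
  -- the two inequalities
  have k2 : r * F0 ≤ r' * F1 + x * (F0 - F1) := by
    have e1 : ∑ l ∈ Ico (i - s) i, (f (l + 1) j : ℝ) = F0 - F1 := by linarith
    rw [e1] at t1
    rw [m0, m1, s1]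
    linarith
  have k1 : (1 - j * ε) * (y * (F2 - F3) + x * (F1 - F2)) ≤ r' * F1 := by
    have e1 : ∑ l ∈ Ico (i - 2 * s) (i - s), (f (l + 1) j : ℝ) = F1 - F2 := by linarith
    have e2 : ∑ l ∈ Ico T (i - 2 * s), (f (l + 1) j : ℝ) = F2 - F3 := by linarith
    rw [e1] at t2
    rw [e2] at t3
    rw [m1, s2, s3]
    calc (1 - j * ε) * (y * (F2 - F3) + x * (F1 - F2))
        = (1 - j * ε) * y * (F2 - F3) + (1 - j * ε) * x * (F1 - F2) := by ring
      _ ≤ ∑ l ∈ Ico T (i - 2 * s), ((DD l).card : ℝ) +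
          ∑ l ∈ Ico (i - 2 * s) (i - s), ((DD l).card : ℝ) := add_le_add t3 t2
      _ ≤ _ := by
          rw [add_assoc]
          exact le_add_of_nonneg_left P0
  have hmain := avg_gain (A := F1 / F0) (r := r) (r' := r') (x := x) (w := F2 / F1) (κ := κ)
    (c := C * ε) (ω := ω) hκ hκ1 hc0 hc hω hω1 ?_ ?_ hx0 hx1 r0 r1 r'1 ?_ ?_ ?_ ?_
  · exact hmain
  · rw [div_le_iff₀ hf0]
    linarith
  · positivity
  · rw [le_div_iff₀ hf1]
    linarith
  · rw [div_le_iff₀ hf1]
    linarith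
  · rw [← hy]
    have e1 : (1 - C * ε) * (F2 / F1 * y + (1 - F2 / F1) * x) * F1 ≤ r' * F1 := by
      have e2 : (1 - C * ε) * (F2 / F1 * y + (1 - F2 / F1) * x) * F1 =
          (1 - C * ε) * (y * F2 + x * (F1 - F2)) := by
        field_simp
      rw [e2]
      refine le_trans ?_ k1
      have b1 : 0 ≤ y * F2 + x * (F1 - F2) :=
        add_nonneg (mul_nonneg hy0 hF20) (mul_nonneg hx0 hS2)
      have b2 : (1 - ε) * (y * F2 + x * (F1 - F2)) ≤ y * (F2 - F3) + x * (F1 - F2) := by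
        have c1 : y * F3 ≤ y * (ε * F2) := mul_le_mul_of_nonneg_left hF32 hy0
        have c2 : 0 ≤ ε * (x * (F1 - F2)) := mul_nonneg hε (mul_nonneg hx0 hS2)
        have c3 : (1 - ε) * (y * F2 + x * (F1 - F2)) =
            y * F2 - y * (ε * F2) + x * (F1 - F2) - ε * (x * (F1 - F2)) := by ring
        have c4 : y * (F2 - F3) = y * F2 - y * F3 := by ring
        rw [c3, c4]
        linarith
      have b3 : (1 - C * ε) ≤ (1 - j * ε) * (1 - ε) := by
        have c3 : (1 - j * ε) * (1 - ε) = 1 - (j * ε + ε) + j * ε * ε := by ring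
        have c4 := mul_nonneg hjε0 hε
        rw [c3]
        linarith
      calc (1 - C * ε) * (y * F2 + x * (F1 - F2))
          ≤ (1 - j * ε) * (1 - ε) * (y * F2 + x * (F1 - F2)) := mul_le_mul_of_nonneg_right b3 b1
        _ = (1 - j * ε) * ((1 - ε) * (y * F2 + x * (F1 - F2))) := by ring
        _ ≤ _ := mul_le_mul_of_nonneg_left b2 (by linarith)
    exact le_of_mul_le_mul_right e1 hf1
  · have e1 : r * F0 ≤ (F1 / F0 * r' + (1 - F1 / F0) * x) * F0 := by
      have e2 : (F1 / F0 * r' + (1 - F1 / F0) * x) * F0 = r' * F1 + x * (F0 - F1) := by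
        field_simp
      rw [e2]
      exact k2
    exact le_of_mul_le_mul_right e1 hf0

private theorem g_all (ω : ℝ) (hω : 0 < ω) (hω1 : ω ≤ 1) (d j : ℕ) (hj1 : 1 ≤ j) (hj : j + 1 < d)
    (m : ℕ) (N : Finset (Multiset ℕ)) (f : ℕ → ℕ → ℕ) (τ : ℕ → ℕ) (ε : ℝ) (s : ℕ) (hε : 0 ≤ ε)
    (hN : Stair m d N f) (hT : Thr m d f τ ε) (hG : Gn m d s f τ ω) :
    ∀ i, m ≤ i + 1 + (d - j) * s → i ≤ m → ∀ D ⊆ lay N i j, Dn N D →
      den f D i j * (1 - 6 ^ j * d * ε + (ω / 8) ^ j * (1 - den f D i j)) ≤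
        den f D (i - s) j := by
  induction j, hj1 using Nat.le_induction with
  | base =>
    intro i hi him D hD hDn
    refine le_trans ?_ (g_base hN hG hω hω1 (by omega) i hi him D hD hDn)
    refine mul_le_mul_of_nonneg_left ?_ (g_den_nonneg _ _ _ _)
    have h1 : 0 ≤ (6 : ℝ) ^ 1 * d * ε := by positivity
    rw [pow_one (ω / 8)]
    linarith
  | succ j hj1 ih =>
    intro i hi him D hD hDn
    have ih' := ih (by omega)
    have r0 := g_den_nonneg f D i (j + 1)
    have r1 := g_den_le_one hN him (by omega : j + 1 ≤ d) hD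
    have r'0 := g_den_nonneg f D (i - s) (j + 1)
    have hω8 : 0 ≤ ω / 8 := by positivity
    have hω81 : ω / 8 ≤ 1 := by linarith
    have hκ0 : 0 ≤ (ω / 8) ^ j := pow_nonneg hω8 j
    have hκ1 : (ω / 8) ^ j ≤ 1 / 2 := by
      calc (ω / 8) ^ j ≤ (ω / 8) ^ 1 := pow_le_pow_of_le_one hω8 hω81 hj1
        _ ≤ 1 / 2 := by rw [pow_one]; linarith
    have hc0 : 0 ≤ (6 : ℝ) ^ j * d * ε := by positivity
    have hCs : (6 : ℝ) ^ (j + 1) * d * ε = 6 * (6 ^ j * d * ε) := by ring
    have hκs : (ω / 8) ^ (j + 1) = ω * (ω / 8) ^ j / 8 := by ring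
    have hκs1 : (ω / 8) ^ (j + 1) ≤ 1 / 2 := by
      calc (ω / 8) ^ (j + 1) ≤ (ω / 8) ^ 1 := pow_le_pow_of_le_one hω8 hω81 (by omega)
        _ ≤ 1 / 2 := by rw [pow_one]; linarith
    have hκs0 : 0 ≤ (ω / 8) ^ (j + 1) := pow_nonneg hω8 _
    rcases le_or_gt ((6 : ℝ) ^ j * d * ε) (1 / 4) with hc | hc
    · have hC : (j : ℝ) + 1 ≤ 6 ^ j * d := by
        have h1 : (j : ℝ) + 1 ≤ d := by exact_mod_cast (by omega : j + 1 ≤ d)
        have h2 : (1 : ℝ) ≤ 6 ^ j := one_le_pow₀ (by norm_num)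
        have h3 : (0 : ℝ) ≤ d := Nat.cast_nonneg _
        nlinarith
      have h1 := g_step hN hT hG hω hω1 hε hκ0 hκ1 hj1 (by omega) hC ih' hc i hi him D hD hDn
      refine le_trans (mul_le_mul_of_nonneg_left ?_ r0) h1
      rw [hCs, hκs]
      linarith
    · refine le_trans ?_ r'0
      apply mul_nonpos_of_nonneg_of_nonpos r0
      rw [hCs]
      linarith only [hc, hκs, hω1, mul_nonneg (sub_nonneg.2 r0) (sub_nonneg.2 hκs0),
        mul_nonneg (sub_nonneg.2 hω.le) (sub_nonneg.2 hκ1)]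

theorem gain (d : ℕ) (ω : ℝ) (hω : 0 < ω) (hω1 : ω ≤ 1) : ∃ κ C : ℝ, 0 < κ ∧ κ ≤ 1 / 2 ∧ 0 ≤ C ∧
    ∀ (m : ℕ) (N : Finset (Multiset ℕ)) (f : ℕ → ℕ → ℕ) (τ : ℕ → ℕ) (ε : ℝ) (s : ℕ), 0 ≤ ε →
      Stair m d N f → Thr m d f τ ε → Gn m d s f τ ω →
      ∀ j, 1 ≤ j → j + 1 < d → ∀ i, m ≤ i + 1 + (d - j) * s → i ≤ m →
      ∀ D ⊆ lay N i j, Dn N D →
        den f D i j * (1 - C * ε + κ * (1 - den f D i j)) ≤ den f D (i - s) j := by
  have hω8 : 0 < ω / 8 := by positivity
  have hω81 : ω / 8 ≤ 1 := by linarith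
  refine ⟨(ω / 8) ^ (d + 1), 6 ^ d * d, by positivity, ?_, by positivity, ?_⟩
  · calc (ω / 8) ^ (d + 1) ≤ (ω / 8) ^ 1 := pow_le_pow_of_le_one hω8.le hω81 (by omega)
      _ ≤ 1 / 2 := by rw [pow_one]; linarith
  · intro m N f τ ε s hε hN hT hG j hj1 hj i hi him D hD hDn
    have h1 := g_all ω hω hω1 d j hj1 hj m N f τ ε s hε hN hT hG i hi him D hD hDn
    refine le_trans (mul_le_mul_of_nonneg_left ?_ (g_den_nonneg _ _ _ _)) h1
    have r1 := g_den_le_one hN him (by omega : j ≤ d) hD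
    have h2 : (ω / 8) ^ (d + 1) ≤ (ω / 8) ^ j := pow_le_pow_of_le_one hω8.le hω81 (by omega)
    have h3 : (6 : ℝ) ^ j * d * ε ≤ 6 ^ d * d * ε := by
      have : (6 : ℝ) ^ j ≤ 6 ^ d := pow_le_pow_right₀ (by norm_num) (by omega)
      gcongr
    have h4 : (ω / 8) ^ (d + 1) * (1 - den f D i j) ≤ (ω / 8) ^ j * (1 - den f D i j) :=
      mul_le_mul_of_nonneg_right h2 (by linarith)
    linarith

end Pool.Agent.XE
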