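import Mathlib

/-!
# XE, module F: few monomials have few common multiples

`small j ψ`: induction on `j`.  `j = 1`: `T → R × R`.  `j + 1`: `θ = ψ / (2 (j + 1))`, call `v'` (degree
`j`) rich if `v' x ∈ R` for at least `θ m` of the `x`; `R' = {rich}`, `|R'| θ m ≤ (j + 1) |R|`;
`T' = {v : all divisors of degree j are rich}`, `|T'| ≤ ψ' m |R'|` by induction (`ψ' (j + 1) / θ = ψ / 2`).
`w ∈ T`: if some `w.erase x |>.erase y` is poor, then `w = x ::ₘ v`, `v = w.erase x ∈ R`, `v' = v.erase y` poor and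
`x ::ₘ v' ∈ R`: at most `|R| (j + 1) θ m` such `w`; otherwise `w.erase x ∈ T'` for every `x`: at most `m |T'|`.
See note 4139 (1).
-/

set_option autoImplicit false

namespace Pool.Agent.XE

open Finset

/-- The variables which lead from `v'` into `R`. -/
private def ext (m : ℕ) (R : Finset (Multiset ℕ)) (v' : Multiset ℕ) : Finset ℕ :=
  (range m).filter fun x => x ::ₘ v' ∈ R

/-- The divisors of degree one less. -/
private def divs (v : Multiset ℕ) : Finset (Multiset ℕ) := v.toFinset.image v.erase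

private lemma card_divs (v : Multiset ℕ) : (divs v).card ≤ Multiset.card v :=
  card_image_le.trans (Multiset.toFinset_card_le v)

private lemma mem_divs {v v' : Multiset ℕ} : v' ∈ divs v ↔ ∃ x ∈ v, v.erase x = v' := by
  simp [divs]

/-- Rich divisors. -/
private noncomputable def rich (m : ℕ) (R : Finset (Multiset ℕ)) (t : ℝ) : Finset (Multiset ℕ) :=
  (R.biUnion divs).filter fun v' => t ≤ ((ext m R v').card : ℝ)

private lemma rich_card (m j : ℕ) (R : Finset (Multiset ℕ)) (t : ℝ)
    (hR : ∀ v ∈ R, Multiset.card v = j) :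
    ((rich m R t).card : ℝ) * t ≤ j * R.card := by
  classical
  have h1 : ((rich m R t).card : ℝ) * t ≤ ∑ v' ∈ rich m R t, ((ext m R v').card : ℝ) := by
    rw [← nsmul_eq_mul]
    apply card_nsmul_le_sum
    intro v' hv'
    exact (mem_filter.1 hv').2
  have h2 : ∑ v' ∈ rich m R t, (ext m R v').card ≤ ∑ v ∈ R, (divs v).card := by
    rw [← card_sigma, ← card_sigma]
    apply card_le_card_of_injOn (fun p : (Σ _ : Multiset ℕ, ℕ) =>
      (⟨p.2 ::ₘ p.1, p.1⟩ : (Σ _ : Multiset ℕ, Multiset ℕ)))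
    · rintro ⟨v', x⟩ hp
      have hp := mem_sigma.1 (mem_coe.1 hp)
      simp only at hp
      apply mem_coe.2
      rw [mem_sigma]
      refine ⟨(mem_filter.1 hp.2).2, mem_divs.2 ⟨x, Multiset.mem_cons_self x v', ?_⟩⟩
      simp
    · rintro ⟨v', x⟩ _ ⟨u', y⟩ _ h
      simp only [Sigma.mk.injEq, heq_eq_eq] at h
      obtain ⟨h1, rfl⟩ := h
      rw [Multiset.cons_inj_left] at h1
      rw [h1]
  have h3 : ∑ v ∈ R, (divs v).card ≤ R.card * j := by
    rw [← smul_eq_mul]
    apply sum_le_card_nsmul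
    intro v hv
    rw [← hR v hv]
    exact card_divs v
  calc ((rich m R t).card : ℝ) * t ≤ ((∑ v' ∈ rich m R t, (ext m R v').card : ℕ) : ℝ) := by
        push_cast
        exact h1
    _ ≤ ((R.card * j : ℕ) : ℝ) := by exact_mod_cast h2.trans h3
    _ = j * R.card := by push_cast; ring

theorem small (j : ℕ) (hj : 1 ≤ j) (ψ : ℝ) (hψ : 0 < ψ) : ∃ τ : ℝ, 0 < τ ∧
    ∀ (m : ℕ) (R T : Finset (Multiset ℕ)),
      (∀ v ∈ R, Multiset.card v = j ∧ ∀ x ∈ v, x < m) →
      (∀ w ∈ T, Multiset.card w = j + 1 ∧ (∀ x ∈ w, x < m) ∧ ∀ x ∈ w, w.erase x ∈ R) →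
      (R.card : ℝ) ≤ τ * (m : ℝ) ^ j → (T.card : ℝ) ≤ ψ * m * (R.card : ℝ) := by
  classical
  induction j, hj using Nat.le_induction generalizing ψ with
  | base =>
    refine ⟨ψ, hψ, fun m R T hR hT hc => ?_⟩
    have h1 : T ⊆ (R ×ˢ R).image fun p => p.1 + p.2 := by
      intro w hw
      obtain ⟨hw1, -, hw2⟩ := hT w hw
      obtain ⟨x, y, rfl⟩ := Multiset.card_eq_two.1 hw1
      refine mem_image.2 ⟨({x}, {y}), mem_product.2 ⟨?_, ?_⟩, ?_⟩
      · have := hw2 y (by simp)
        rwa [show ({x, y} : Multiset ℕ) = y ::ₘ {x} from Multiset.pair_comm x y,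
          Multiset.erase_cons_head] at this
      · have := hw2 x (by simp)
        rwa [show ({x, y} : Multiset ℕ) = x ::ₘ {y} from rfl, Multiset.erase_cons_head] at this
      · rfl
    have h2 : T.card ≤ R.card * R.card := by
      refine (card_le_card h1).trans (card_image_le.trans ?_)
      rw [card_product]
    calc (T.card : ℝ) ≤ R.card * R.card := by exact_mod_cast h2
      _ ≤ (ψ * (m : ℝ) ^ 1) * R.card := mul_le_mul_of_nonneg_right hc (Nat.cast_nonneg _)
      _ = ψ * m * R.card := by rw [pow_one]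
  | succ j hj ih =>
    obtain ⟨θ, hθ⟩ : ∃ θ : ℝ, θ = ψ / (2 * ((j : ℝ) + 1)) := ⟨_, rfl⟩
    have hj1 : (0 : ℝ) < (j : ℝ) + 1 := by positivity
    have hθ0 : 0 < θ := by rw [hθ]; positivity
    obtain ⟨ψ', hψ'⟩ : ∃ ψ' : ℝ, ψ' = ψ * θ / (2 * ((j : ℝ) + 1)) := ⟨_, rfl⟩
    have hψ0 : 0 < ψ' := by rw [hψ']; positivity
    obtain ⟨τ', hτ', h⟩ := ih ψ' hψ0
    refine ⟨τ' * θ / ((j : ℝ) + 1), by positivity, fun m R T hR hT hc => ?_⟩
    rcases Nat.eq_zero_or_pos m with rfl | hm
    · -- no monomials of positive degree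
      have : T = ∅ := by
        rw [eq_empty_iff_forall_notMem]
        intro w hw
        obtain ⟨hw1, hw2, -⟩ := hT w hw
        obtain ⟨x, hx⟩ := Multiset.card_pos_iff_exists_mem.1 (by omega : 0 < Multiset.card w)
        exact absurd (hw2 x hx) (Nat.not_lt_zero x)
      rw [this]
      simp
    have hm0 : (0 : ℝ) < m := by exact_mod_cast hm
    -- the rich divisors
    obtain ⟨R', hR'⟩ : ∃ R', R' = rich m R (θ * m) := ⟨_, rfl⟩
    have hR'card : (R'.card : ℝ) * (θ * m) ≤ ((j : ℝ) + 1) * R.card := by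
      rw [hR']
      have := rich_card m (j + 1) R (θ * m) fun v hv => (hR v hv).1
      push_cast at this
      exact this
    obtain ⟨T', hT'⟩ : ∃ T', T' = (T.biUnion divs).filter fun v => ∀ y ∈ v, v.erase y ∈ R' :=
      ⟨_, rfl⟩
    have hT'card : (T'.card : ℝ) ≤ ψ' * m * R'.card := by
      apply h m R' T'
      · intro v' hv'
        rw [hR'] at hv'
        obtain ⟨hv1, -⟩ := mem_filter.1 hv'
        obtain ⟨v, hv, hd⟩ := mem_biUnion.1 hv1
        obtain ⟨x, hx, rfl⟩ := mem_divs.1 hd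
        obtain ⟨h1, h2⟩ := hR v hv
        refine ⟨?_, fun y hy => h2 y (Multiset.mem_of_mem_erase hy)⟩
        rw [Multiset.card_erase_of_mem hx, h1]
        rfl
      · intro v hv
        rw [hT'] at hv
        obtain ⟨hv1, hv2⟩ := mem_filter.1 hv
        obtain ⟨w, hw, hd⟩ := mem_biUnion.1 hv1
        obtain ⟨x, hx, rfl⟩ := mem_divs.1 hd
        obtain ⟨h1, h2, -⟩ := hT w hw
        refine ⟨?_, fun y hy => h2 y (Multiset.mem_of_mem_erase hy), hv2⟩
        rw [Multiset.card_erase_of_mem hx, h1]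
        rfl
      · have h1 : (R'.card : ℝ) * (θ * m) ≤ τ' * θ * (m : ℝ) ^ (j + 1) := by
          calc (R'.card : ℝ) * (θ * m) ≤ ((j : ℝ) + 1) * R.card := hR'card
            _ ≤ ((j : ℝ) + 1) * (τ' * θ / ((j : ℝ) + 1) * (m : ℝ) ^ (j + 1)) :=
              mul_le_mul_of_nonneg_left hc hj1.le
            _ = τ' * θ * (m : ℝ) ^ (j + 1) := by field_simp
        have h2 : τ' * θ * (m : ℝ) ^ (j + 1) = τ' * (m : ℝ) ^ j * (θ * m) := by ring
        rw [h2] at h1
        exact le_of_mul_le_mul_right h1 (by positivity)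
    -- poor words
    obtain ⟨T1, hT1⟩ : ∃ T1 : Finset (Multiset ℕ), T1 = R.biUnion fun v =>
      ((divs v).filter fun v' => v' ∉ R').biUnion fun v' => (ext m R v').image fun x => x ::ₘ v :=
      ⟨_, rfl⟩
    have hT1card : (T1.card : ℝ) ≤ R.card * (((j : ℝ) + 1) * (θ * m)) := by
      rw [hT1]
      refine le_trans (Nat.cast_le.2 card_biUnion_le) ?_
      push_cast
      rw [← nsmul_eq_mul]
      apply sum_le_card_nsmul
      intro v hv
      refine le_trans (Nat.cast_le.2 card_biUnion_le) ?_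
      push_cast
      refine le_trans (sum_le_card_nsmul _ _ (θ * m) ?_) ?_
      · intro v' hv'
        obtain ⟨hd, hp⟩ := mem_filter.1 hv'
        have h1 : ((ext m R v').card : ℝ) < θ * m := by
          by_contra hcon
          push Not at hcon
          apply hp
          rw [hR']
          exact mem_filter.2 ⟨mem_biUnion.2 ⟨v, hv, hd⟩, hcon⟩
        refine le_trans (Nat.cast_le.2 card_image_le) h1.le
      · rw [nsmul_eq_mul]
        apply mul_le_mul_of_nonneg_right _ (by positivity)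
        have h1 : ((divs v).filter fun v' => v' ∉ R').card ≤ j + 1 := by
          refine (card_filter_le _ _).trans ((card_divs v).trans ?_)
          rw [(hR v hv).1]
        exact_mod_cast h1
    -- rich words
    obtain ⟨T2, hT2⟩ : ∃ T2 : Finset (Multiset ℕ), T2 =
      (range m ×ˢ T').image fun p => p.1 ::ₘ p.2 := ⟨_, rfl⟩
    have hT2card : (T2.card : ℝ) ≤ m * T'.card := by
      have : T2.card ≤ m * T'.card := by
        rw [hT2]
        refine card_image_le.trans ?_
        rw [card_product, card_range]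
      exact_mod_cast this
    have hcover : T ⊆ T1 ∪ T2 := by
      intro w hw
      obtain ⟨hw1, hw2, hw3⟩ := hT w hw
      by_cases hp : ∃ x ∈ w, ∃ y ∈ w.erase x, (w.erase x).erase y ∉ R'
      · apply mem_union_left
        obtain ⟨x, hx, y, hy, hxy⟩ := hp
        rw [hT1, mem_biUnion]
        refine ⟨w.erase x, hw3 x hx, mem_biUnion.2 ⟨(w.erase x).erase y,
          mem_filter.2 ⟨mem_divs.2 ⟨y, hy, rfl⟩, hxy⟩, mem_image.2 ⟨x, ?_, Multiset.cons_erase hx⟩⟩⟩
        refine mem_filter.2 ⟨mem_range.2 (hw2 x hx), ?_⟩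
        have h1 : x ::ₘ (w.erase x).erase y = w.erase y := by
          have h2 : w = x ::ₘ y ::ₘ (w.erase x).erase y := by
            rw [Multiset.cons_erase hy, Multiset.cons_erase hx]
          conv_rhs => rw [h2, Multiset.cons_swap, Multiset.erase_cons_head]
        rw [h1]
        exact hw3 y (Multiset.mem_of_mem_erase hy)
      · apply mem_union_right
        push Not at hp
        obtain ⟨x, hx⟩ := Multiset.card_pos_iff_exists_mem.1 (by omega : 0 < Multiset.card w)
        rw [hT2, mem_image]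
        refine ⟨(x, w.erase x), mem_product.2 ⟨mem_range.2 (hw2 x hx), ?_⟩, Multiset.cons_erase hx⟩
        rw [hT']
        refine mem_filter.2 ⟨mem_biUnion.2 ⟨w, hw, mem_divs.2 ⟨x, hx, rfl⟩⟩, ?_⟩
        intro y hy
        exact hp x hx y hy
    have hTle : (T.card : ℝ) ≤ T1.card + T2.card := by
      exact_mod_cast (card_le_card hcover).trans (card_union_le _ _)
    have hT'2 : (T'.card : ℝ) ≤ ψ / 2 * R.card := by
      calc (T'.card : ℝ) ≤ ψ' * m * R'.card := hT'card
        _ = ψ / (2 * ((j : ℝ) + 1)) * (R'.card * (θ * m)) := by rw [hψ']; ring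
        _ ≤ ψ / (2 * ((j : ℝ) + 1)) * (((j : ℝ) + 1) * R.card) :=
          mul_le_mul_of_nonneg_left hR'card (by positivity)
        _ = ψ / 2 * R.card := by field_simp
    have hT1' : (R.card : ℝ) * (((j : ℝ) + 1) * (θ * m)) = ψ / 2 * m * R.card := by
      rw [hθ]
      field_simp
    have hT2' : (m : ℝ) * T'.card ≤ m * (ψ / 2 * R.card) :=
      mul_le_mul_of_nonneg_left hT'2 hm0.le
    calc (T.card : ℝ) ≤ T1.card + T2.card := hTle
      _ ≤ ψ / 2 * m * R.card + m * (ψ / 2 * R.card) := by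
        rw [← hT1']
        linarith
      _ = ψ * m * R.card := by ring

end Pool.Agent.XE
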