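import Pool.Agent.XD.Defs
import Pool.Agent.XE.Small

/-!
# XE, module E: small ranks

`EE N m d j`: the `v ∈ N` of degree `j` with `v y_{m-1}^{d-j} ∈ N`.  `EE_card`: complement of `kk`.  `EE_erase`: from
`w y^{d-j-1} ∈ N` move `x → m - 1` (`Stair.up`; nothing to do if `x = m - 1`) and `N` closed under divisors.
`small_chain`: iterate `small` from `j = d - e` to `d - 1` (choose the `τ` small enough: `|E_{j+1}| ≤ ψ m |E_j| ≤ ψ τ m^{j+1}`).
-/

set_option autoImplicit false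

namespace Pool.Agent.XE

open Finset Pool.Agent.XD

/-- The `v ∈ N` of degree `j` with `v y_{m-1}^{d-j} ∈ N`. -/
def EE (N : Finset (Multiset ℕ)) (m d j : ℕ) : Finset (Multiset ℕ) :=
  (lay N m j).filter fun v => v + Multiset.replicate (d - j) (m - 1) ∈ N

variable {m d : ℕ} {N : Finset (Multiset ℕ)} {f : ℕ → ℕ → ℕ}

theorem mem_EE {j : ℕ} {v : Multiset ℕ} : v ∈ EE N m d j ↔
    (v ∈ N ∧ Multiset.card v = j ∧ ∀ x ∈ v, x < m) ∧
      v + Multiset.replicate (d - j) (m - 1) ∈ N := by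
  unfold EE
  rw [mem_filter, mem_lay]

theorem EE_card (N : Finset (Multiset ℕ)) (m : ℕ) {d e : ℕ} (he : e ≤ d) :
    (EE N m d (d - e)).card + kk N m d e = (lay N m (d - e)).card := by
  unfold EE kk
  rw [Nat.sub_sub_self he]
  exact Finset.card_filter_add_card_filter_not _

theorem EE_erase (hN : Stair m d N f) (hm : 1 ≤ m) {j : ℕ} (hj : j + 1 ≤ d) {w : Multiset ℕ}
    (hw : w ∈ EE N m d (j + 1)) {x : ℕ} (hx : x ∈ w) : w.erase x ∈ EE N m d j := by
  rw [mem_EE] at hw ⊢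
  obtain ⟨⟨hwN, hwc, hwl⟩, hwr⟩ := hw
  refine ⟨⟨hN.div w hwN _ (Multiset.erase_le x w), ?_, ?_⟩, ?_⟩
  · rw [Multiset.card_erase_of_mem hx, hwc]
    rfl
  · intro y hy
    exact hwl y (Multiset.mem_of_mem_erase hy)
  · have e1 : d - j = (d - (j + 1)) + 1 := by omega
    rw [e1, Multiset.replicate_succ]
    rcases Nat.lt_or_ge x (m - 1) with h | h
    · have h2 := hN.up _ hwr x (Multiset.mem_add.mpr (Or.inl hx)) (m - 1) h (by omega)
      rw [Multiset.erase_add_left_pos _ hx] at h2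
      rwa [Multiset.add_cons]
    · have h3 : x = m - 1 := by
        have := hwl x hx
        omega
      subst h3
      rw [Multiset.add_cons, ← Multiset.cons_add, Multiset.cons_erase hx]
      exact hwr

/-- If nothing of degree `j` then nothing of degree `i ≥ j`. -/
theorem EE_empty (hN : Stair m d N f) (hm : 1 ≤ m) {j i : ℕ} (hji : j ≤ i) (hi : i ≤ d)
    (h : EE N m d j = ∅) : EE N m d i = ∅ := by
  induction i, hji using Nat.le_induction with
  | base => exact h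
  | succ k hk ih =>
    have ih' := ih (by omega)
    rw [Finset.eq_empty_iff_forall_notMem]
    intro w hw
    have hw' := (mem_EE.mp hw).1.2.1
    obtain ⟨x, hx⟩ : ∃ x, x ∈ w := by
      apply Multiset.card_pos_iff_exists_mem.mp
      omega
    have h1 := EE_erase hN hm hi hw hx
    rw [ih'] at h1
    exact Finset.notMem_empty _ h1

/-- One step, uniformly in the degree. -/
theorem small_one (d : ℕ) (ψ : ℝ) (hψ : 0 < ψ) : ∃ τ : ℝ, 0 < τ ∧
    ∀ (j m : ℕ) (N : Finset (Multiset ℕ)) (f : ℕ → ℕ → ℕ), 1 ≤ j → j + 1 ≤ d → 1 ≤ m →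
      Stair m d N f → ((EE N m d j).card : ℝ) ≤ τ * (m : ℝ) ^ j →
      ((EE N m d (j + 1)).card : ℝ) ≤ ψ * m * ((EE N m d j).card : ℝ) := by
  have key : ∀ D : ℕ, ∃ τ : ℝ, 0 < τ ∧
      ∀ (j m : ℕ) (N : Finset (Multiset ℕ)) (f : ℕ → ℕ → ℕ), j < D → 1 ≤ j → j + 1 ≤ d → 1 ≤ m →
      Stair m d N f → ((EE N m d j).card : ℝ) ≤ τ * (m : ℝ) ^ j →
      ((EE N m d (j + 1)).card : ℝ) ≤ ψ * m * ((EE N m d j).card : ℝ) := by
    intro D
    induction D with
    | zero => exact ⟨1, one_pos, fun j m N f h => absurd h (Nat.not_lt_zero _)⟩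
    | succ D ih =>
      obtain ⟨τ, hτ, h⟩ := ih
      rcases Nat.eq_zero_or_pos D with h0 | h0
      · refine ⟨1, one_pos, fun j m N f h1 h2 => ?_⟩
        omega
      · obtain ⟨σ, hσ, h'⟩ := small D h0 ψ hψ
        refine ⟨min τ σ, lt_min hτ hσ, fun j m N f h1 h2 h3 h4 h5 h6 => ?_⟩
        have hmj : (0 : ℝ) ≤ (m : ℝ) ^ j := by positivity
        rcases Nat.lt_or_ge j D with h7 | h7
        · exact h j m N f h7 h2 h3 h4 h5
            (h6.trans (mul_le_mul_of_nonneg_right (min_le_left _ _) hmj))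
        · have h8 : j = D := by omega
          subst h8
          refine h' m (EE N m d j) (EE N m d (j + 1)) ?_ ?_
            (h6.trans (mul_le_mul_of_nonneg_right (min_le_right _ _) hmj))
          · intro v hv
            exact ⟨(mem_EE.mp hv).1.2.1, (mem_EE.mp hv).1.2.2⟩
          · intro w hw
            exact ⟨(mem_EE.mp hw).1.2.1, (mem_EE.mp hw).1.2.2,
              fun x hx => EE_erase h5 h4 h3 hw hx⟩
  obtain ⟨τ, hτ, h⟩ := key (d + 1)
  exact ⟨τ, hτ, fun j m N f h1 h2 h3 h4 h5 => h j m N f (by omega) h1 h2 h3 h4 h5⟩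

/-- `k + 1` steps. -/
theorem small_steps (d k : ℕ) : ∀ (ψ : ℝ), 0 < ψ → ∃ τ : ℝ, 0 < τ ∧
    ∀ (j m : ℕ) (N : Finset (Multiset ℕ)) (f : ℕ → ℕ → ℕ), 1 ≤ j → j + (k + 1) ≤ d → 1 ≤ m →
      Stair m d N f → ((EE N m d j).card : ℝ) ≤ τ * (m : ℝ) ^ j →
      ((EE N m d (j + (k + 1))).card : ℝ) ≤ ψ * (m : ℝ) ^ (k + 1) * ((EE N m d j).card : ℝ) := by
  induction k with
  | zero =>
    intro ψ hψ
    obtain ⟨τ, hτ, h⟩ := small_one d ψ hψ
    refine ⟨τ, hτ, fun j m N f h1 h2 h3 h4 h5 => ?_⟩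
    have := h j m N f h1 h2 h3 h4 h5
    simpa using this
  | succ k ih =>
    intro ψ hψ
    obtain ⟨τ, hτ, h⟩ := ih ψ hψ
    obtain ⟨σ, hσ, h'⟩ := small_one d (min 1 τ) (lt_min one_pos hτ)
    refine ⟨min 1 σ, lt_min one_pos hσ, fun j m N f h1 h2 h3 h4 h5 => ?_⟩
    have hm0 : (0 : ℝ) ≤ (m : ℝ) := Nat.cast_nonneg _
    have hmj : (0 : ℝ) ≤ (m : ℝ) ^ j := by positivity
    have hE : (0 : ℝ) ≤ ((EE N m d j).card : ℝ) := Nat.cast_nonneg _
    have hmin1 : min 1 τ ≤ 1 := min_le_left _ _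
    have hminτ : min 1 τ ≤ τ := min_le_right _ _
    have hmin0 : 0 < min 1 τ := lt_min one_pos hτ
    have h6 := h' j m N f h1 (by omega) h3 h4
      (h5.trans (mul_le_mul_of_nonneg_right (min_le_right _ _) hmj))
    have h51 : ((EE N m d j).card : ℝ) ≤ 1 * (m : ℝ) ^ j :=
      h5.trans (mul_le_mul_of_nonneg_right (min_le_left _ _) hmj)
    have h7 : ((EE N m d (j + 1)).card : ℝ) ≤ τ * (m : ℝ) ^ (j + 1) := by
      calc ((EE N m d (j + 1)).card : ℝ) ≤ min 1 τ * m * ((EE N m d j).card : ℝ) := h6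
        _ ≤ τ * m * (1 * (m : ℝ) ^ j) := by gcongr
        _ = τ * (m : ℝ) ^ (j + 1) := by ring
    have h8 := h (j + 1) m N f (by omega) (by omega) h3 h4 h7
    have e1 : j + (k + 1 + 1) = j + 1 + (k + 1) := by ring
    rw [e1]
    calc ((EE N m d (j + 1 + (k + 1))).card : ℝ)
        ≤ ψ * (m : ℝ) ^ (k + 1) * ((EE N m d (j + 1)).card : ℝ) := h8
      _ ≤ ψ * (m : ℝ) ^ (k + 1) * (1 * m * ((EE N m d j).card : ℝ)) := by
          apply mul_le_mul_of_nonneg_left _ (by positivity)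
          refine h6.trans ?_
          gcongr
      _ = ψ * (m : ℝ) ^ (k + 1 + 1) * ((EE N m d j).card : ℝ) := by ring

theorem small_chain (d : ℕ) (ψ : ℝ) (hψ : 0 < ψ) : ∃ τ : ℝ, 0 < τ ∧
    ∀ (e m : ℕ) (N : Finset (Multiset ℕ)) (f : ℕ → ℕ → ℕ), 2 ≤ e → e + 1 ≤ d → 1 ≤ m →
      Stair m d N f → ((EE N m d (d - e)).card : ℝ) ≤ τ * (m : ℝ) ^ (d - e) →
      ((EE N m d (d - 1)).card : ℝ) ≤ ψ * (m : ℝ) ^ (e - 1) * ((EE N m d (d - e)).card : ℝ) := by
  have key : ∀ K : ℕ, ∃ τ : ℝ, 0 < τ ∧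
      ∀ (k j m : ℕ) (N : Finset (Multiset ℕ)) (f : ℕ → ℕ → ℕ), k < K → 1 ≤ j →
      j + (k + 1) ≤ d → 1 ≤ m →
      Stair m d N f → ((EE N m d j).card : ℝ) ≤ τ * (m : ℝ) ^ j →
      ((EE N m d (j + (k + 1))).card : ℝ) ≤ ψ * (m : ℝ) ^ (k + 1) * ((EE N m d j).card : ℝ) := by
    intro K
    induction K with
    | zero => exact ⟨1, one_pos, fun k j m N f h => absurd h (Nat.not_lt_zero _)⟩
    | succ K ih =>
      obtain ⟨τ, hτ, h⟩ := ih
      obtain ⟨σ, hσ, h'⟩ := small_steps d K ψ hψ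
      refine ⟨min τ σ, lt_min hτ hσ, fun k j m N f h1 h2 h3 h4 h5 h6 => ?_⟩
      have hmj : (0 : ℝ) ≤ (m : ℝ) ^ j := by positivity
      rcases Nat.lt_or_ge k K with h7 | h7
      · exact h k j m N f h7 h2 h3 h4 h5
          (h6.trans (mul_le_mul_of_nonneg_right (min_le_left _ _) hmj))
      · have h8 : k = K := by omega
        subst h8
        exact h' j m N f h2 h3 h4 h5
          (h6.trans (mul_le_mul_of_nonneg_right (min_le_right _ _) hmj))
  obtain ⟨τ, hτ, h⟩ := key d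
  refine ⟨τ, hτ, fun e m N f he hed hm hN hc => ?_⟩
  have h1 := h (e - 2) (d - e) m N f (by omega) (by omega) (by omega) hm hN hc
  have e1 : d - e + (e - 2 + 1) = d - 1 := by omega
  have e2 : e - 2 + 1 = e - 1 := by omega
  rw [e1, e2] at h1
  exact h1

end Pool.Agent.XE
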