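import Pool.Agent.XD.Num.Xd
import Pool.Agent.XE.Gain

/-!
# XE, module N: the thresholds, with room below `m`

From `Pool.Agent.XD.thr` (`IH` = `xd`), at `m` for exactness, `small`; and at `m' = m - (d + 3) s - 1`, `s = ⌊θ m⌋`, `θ`
small depending on `η`, `d`, for the `τ` (`n = m`; `A e m' t j ≥ A e m t j - ((d+3) s + 1) m^(j-1) ≥ (η/2) m^j`).  `recu`
for `i ≥ m'`: exactness (`xd`) and `A_pascal`.  `Gn.half`, `Gn.incr`: `F i t j = A e i t j`,
`A e i t j - A e (i - s) t j = ∑_{i - s < l ≤ i} A e l t (j - 1)`, `(η/2) m^(j-1) ≤ A e l t (j-1) ≤ m^(j-1)`.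
-/

set_option autoImplicit false

namespace Pool.Agent.XE

open Finset Pool.Agent.XD

/-- One variable less costs at most `m^j`. -/
private theorem T2_low {e : ℕ → ℕ} (he : ∀ t, 1 ≤ e t) {d m t : ℕ} {η : ℝ} (hη : 0 < η)
    (hA : ∀ j < d, η * (m : ℝ) ^ j ≤ (A e m t j : ℝ)) (k : ℕ) (hkm : k ≤ m)
    (hk : (k : ℝ) ≤ η / 2 * m) : ∀ j, j + 1 < d →
      η * (m : ℝ) ^ (j + 1) - k * (m : ℝ) ^ j ≤ (A e (m - k) t (j + 1) : ℝ) := by
  induction k with
  | zero =>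
    intro j hj
    have h1 := hA (j + 1) hj
    simpa using h1
  | succ k ih =>
    intro j hj
    have hk' : (k : ℝ) ≤ η / 2 * m := by
      push_cast at hk
      linarith
    have ih' := ih (by omega) hk'
    have hpos : ∀ l < j, 0 ≤ A e (m - k) t l := by
      intro l hl
      rcases l with _ | l
      · rw [A_deg_zero he]
        norm_num
      · have h1 := ih' l (by omega)
        have h2 : (k : ℝ) * (m : ℝ) ^ l ≤ η / 2 * m * (m : ℝ) ^ l :=
          mul_le_mul_of_nonneg_right hk' (by positivity)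
        have h3 : (0 : ℝ) ≤ η * (m : ℝ) ^ (l + 1) := by positivity
        have h4 : (0 : ℝ) ≤ (A e (m - k) t (l + 1) : ℝ) := by
          rw [pow_succ] at h1 h3
          nlinarith
        exact_mod_cast h4
    have h1 := ih' j hj
    have h2 : A e (m - k) t (j + 1) = A e (m - (k + 1)) t (j + 1) + A e (m - k) t j := by
      have h3 := A_pascal he (m - (k + 1)) t j
      rwa [show m - (k + 1) + 1 = m - k by omega] at h3
    have h3 : A e (m - k) t j ≤ ((m - k : ℕ) : ℤ) ^ j := A_le_pow he hpos le_rfl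
    have h4 : (A e (m - k) t j : ℝ) ≤ (m : ℝ) ^ j := by
      have h5 : (A e (m - k) t j : ℝ) ≤ ((m - k : ℕ) : ℝ) ^ j := by exact_mod_cast h3
      refine h5.trans (pow_le_pow_left₀ (Nat.cast_nonneg _) ?_ j)
      exact_mod_cast Nat.sub_le m k
    have h5 : (A e (m - k) t (j + 1) : ℝ) = (A e (m - (k + 1)) t (j + 1) : ℝ) +
        (A e (m - k) t j : ℝ) := by exact_mod_cast h2
    push_cast
    linarith

/-- The bounds near `m`. -/
private theorem T2_bd {e : ℕ → ℕ} (he : ∀ t, 1 ≤ e t) {d m t : ℕ} {η : ℝ} (hη : 0 < η)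
    (hA : ∀ j < d, η * (m : ℝ) ^ j ≤ (A e m t j : ℝ)) {K : ℕ} (hKm : K ≤ m)
    (hK : (K : ℝ) ≤ η / 2 * m) {i : ℕ} (hi : m ≤ i + K) (him : i ≤ m) {j : ℕ} (hj : j < d) :
    η / 2 * (m : ℝ) ^ j ≤ (A e i t j : ℝ) ∧ (A e i t j : ℝ) ≤ (m : ℝ) ^ j := by
  have hlow : ∀ l < d, η / 2 * (m : ℝ) ^ l ≤ (A e i t l : ℝ) := by
    intro l hl
    rcases l with _ | l
    · have h1 := hA 0 (by omega)
      rw [A_deg_zero he] at h1 ⊢
      norm_num at h1 ⊢
      linarith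
    · have hk : ((m - i : ℕ) : ℝ) ≤ η / 2 * m := by
        refine le_trans ?_ hK
        exact_mod_cast (by omega : m - i ≤ K)
      have h1 := T2_low he hη hA (m - i) (by omega) hk l hl
      rw [show m - (m - i) = i by omega] at h1
      have h2 : ((m - i : ℕ) : ℝ) * (m : ℝ) ^ l ≤ η / 2 * m * (m : ℝ) ^ l :=
        mul_le_mul_of_nonneg_right hk (by positivity)
      rw [pow_succ] at h1 ⊢
      nlinarith
  refine ⟨hlow j hj, ?_⟩
  have h1 : A e i t j ≤ (i : ℤ) ^ j := by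
    refine A_le_pow he (D := j) (fun l hl => ?_) le_rfl
    have h2 := hlow l (by omega)
    have h3 : (0 : ℝ) ≤ η / 2 * (m : ℝ) ^ l := by positivity
    exact_mod_cast h3.trans h2
  have h2 : (A e i t j : ℝ) ≤ (i : ℝ) ^ j := by exact_mod_cast h1
  refine h2.trans (pow_le_pow_left₀ (Nat.cast_nonneg _) ?_ j)
  exact_mod_cast him

/-- The increments near `m`. -/
private theorem T2_incr {e : ℕ → ℕ} (he : ∀ t, 1 ≤ e t) {d m t : ℕ} {η : ℝ} (hη : 0 < η)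
    (hA : ∀ j < d, η * (m : ℝ) ^ j ≤ (A e m t j : ℝ)) {K : ℕ} (hKm : K ≤ m)
    (hK : (K : ℝ) ≤ η / 2 * m) {i : ℕ} (hi : m ≤ i + K) {j : ℕ} (hj : j + 1 < d) (g : ℕ)
    (hg : i + g ≤ m) :
    g * (η / 2 * (m : ℝ) ^ j) ≤ (A e (i + g) t (j + 1) : ℝ) - (A e i t (j + 1) : ℝ) ∧
      (A e (i + g) t (j + 1) : ℝ) - (A e i t (j + 1) : ℝ) ≤ g * (m : ℝ) ^ j := by
  induction g with
  | zero => simp
  | succ g ih =>
    obtain ⟨h1, h2⟩ := ih (by omega)
    have h3 : (A e (i + (g + 1)) t (j + 1) : ℝ) = (A e (i + g) t (j + 1) : ℝ) +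
        (A e (i + (g + 1)) t j : ℝ) := by
      exact_mod_cast A_pascal he (i + g) t j
    obtain ⟨h4, h5⟩ := T2_bd he hη hA hKm hK (i := i + (g + 1)) (by omega) hg
      (show j < d by omega)
    rw [h3]
    push_cast
    constructor <;> linarith

private theorem T2_one {d : ℕ} (hd : 1 ≤ d) {e : ℕ → ℕ} {F : ℕ → ℕ → ℕ → ℕ} (he : ∀ t, 2 ≤ e t)
    (hF : Sys d e F) (m t : ℕ) : F m t 1 = m := by
  have he1 : ∀ t, 1 ≤ e t := fun t => (he t).trans' (by norm_num)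
  induction t with
  | zero => rw [hF.zero m 1 hd, Nat.multichoose_one_right]
  | succ t ih =>
    have h2 := he t
    rw [hF.skip he1 m t hd (by omega)]
    exact ih

private theorem T2_all (d : ℕ) (η : ℝ) (hη : 0 < η) : ∃ N : ℕ, ∀ l < d, Exact l η N := by
  induction d with
  | zero => exact ⟨0, fun l hl => absurd hl (Nat.not_lt_zero l)⟩
  | succ d ih =>
    obtain ⟨N, hN⟩ := ih
    obtain ⟨M, hM⟩ := xd d η hη
    refine ⟨max N M, fun l hl n hn => ?_⟩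
    rcases Nat.lt_succ_iff_lt_or_eq.1 hl with h | rfl
    · exact hN l h n ((le_max_left _ _).trans hn)
    · exact hM n ((le_max_right _ _).trans hn)

theorem thr2 (d : ℕ) (hd : 2 ≤ d) (η : ℝ) (hη : 0 < η) : ∃ ω : ℝ, 0 < ω ∧ ω ≤ 1 ∧
    ∀ ε : ℝ, 0 < ε → ∃ n₁ : ℕ, ∀ m, n₁ ≤ m →
    ∀ (e : ℕ → ℕ) (F : ℕ → ℕ → ℕ → ℕ), (∀ t, 2 ≤ e t) → Sys d e F → ∀ t,
      (∀ j < d, η * (m : ℝ) ^ j ≤ (A e m t j : ℝ)) →
      1 ≤ m ∧ (∀ j < d, (F m t j : ℤ) = A e m t j) ∧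
        ∃ (τ : ℕ → ℕ) (s : ℕ), Thr m d (fun i j => F i t j) τ ε ∧
          Gn m d s (fun i j => F i t j) τ ω := by
  obtain ⟨η', hη', hη'0, hη'1⟩ : ∃ η' : ℝ, η' ≤ η ∧ 0 < η' ∧ η' ≤ 1 :=
    ⟨min η 1, min_le_left _ _, lt_min hη one_pos, min_le_right _ _⟩
  obtain ⟨θ, hθ⟩ : ∃ θ : ℝ, θ = η' / (4 * (d + 4)) := ⟨_, rfl⟩
  have hd4 : (0 : ℝ) < 4 * ((d : ℝ) + 4) := by positivity
  have hθ0 : 0 < θ := by rw [hθ]; positivity
  have hθd : ((d : ℝ) + 4) * θ = η' / 4 := by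
    rw [hθ]
    field_simp
  have hθη : θ ≤ η' / 4 := by
    rw [← hθd]
    have h1 : (1 : ℝ) ≤ (d : ℝ) + 4 := by
      have : (0 : ℝ) ≤ d := Nat.cast_nonneg _
      linarith
    nlinarith
  refine ⟨θ * η' / 4, by positivity, ?_, fun ε hε => ?_⟩
  · nlinarith
  obtain ⟨n₁, h₁⟩ := thr d hd (fun l _ η hη => xd l η hη) η' ε hη'0 hε
  obtain ⟨n₂, h₂⟩ := thr d hd (fun l _ η hη => xd l η hη) (η' / 2) ε (by positivity) hε
  obtain ⟨n₃, h₃⟩ := T2_all d (η' / 2) (by positivity)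
  obtain ⟨n₄, h₄⟩ := exists_nat_ge (8 / η')
  obtain ⟨n₅, h₅⟩ := exists_nat_ge (2 / θ)
  refine ⟨n₁ + n₂ + n₃ + n₄ + n₅, fun m hm e F he hS t hA => ?_⟩
  have he1 : ∀ t, 1 ≤ e t := fun t => (he t).trans' (by norm_num)
  have hA' : ∀ j < d, η' * (m : ℝ) ^ j ≤ (A e m t j : ℝ) := fun j hj =>
    (mul_le_mul_of_nonneg_right hη' (by positivity)).trans (hA j hj)
  have hm4 : 8 ≤ η' * m := by
    have h6 : (n₄ : ℝ) ≤ m := by exact_mod_cast (by omega : n₄ ≤ m)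
    have h7 := h₄.trans h6
    rw [div_le_iff₀ hη'0] at h7
    linarith
  have hm5 : 2 ≤ θ * m := by
    have h6 : (n₅ : ℝ) ≤ m := by exact_mod_cast (by omega : n₅ ≤ m)
    have h7 := h₅.trans h6
    rw [div_le_iff₀ hθ0] at h7
    linarith
  have hm0 : (0 : ℝ) < m := by
    by_contra h
    push Not at h
    nlinarith
  obtain ⟨s, hs⟩ : ∃ s : ℕ, s = ⌊θ * m⌋₊ := ⟨_, rfl⟩
  have hs1 : (s : ℝ) ≤ θ * m := by
    rw [hs]
    exact Nat.floor_le (by positivity)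
  have hs2 : θ * m / 2 ≤ s := by
    have h6 := Nat.lt_floor_add_one (θ * m)
    rw [← hs] at h6
    linarith
  have hs3 : 1 ≤ s := by
    have h6 : (1 : ℝ) ≤ s := by linarith
    exact_mod_cast h6
  -- the room below `m`
  obtain ⟨K, hK⟩ : ∃ K : ℕ, K = (d + 3) * s + 2 := ⟨_, rfl⟩
  have hKr : (K : ℝ) ≤ η' / 2 * m := by
    rw [hK]
    push_cast
    have h6 : ((d : ℝ) + 3) * s ≤ (d + 3) * (θ * m) := mul_le_mul_of_nonneg_left hs1 (by positivity)
    have h7 : ((d : ℝ) + 3) * (θ * m) = ((d + 4) * θ) * m - θ * m := by ring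
    rw [hθd] at h7
    nlinarith
  have hKm : K ≤ m := by
    have h6 : (K : ℝ) ≤ m := by
      refine hKr.trans ?_
      nlinarith
    exact_mod_cast h6
  have hbd : ∀ i, m ≤ i + K → i ≤ m → ∀ j < d,
      η' / 2 * (m : ℝ) ^ j ≤ (A e i t j : ℝ) ∧ (A e i t j : ℝ) ≤ (m : ℝ) ^ j :=
    fun i hi him j hj => T2_bd he1 hη'0 hA' hKm hKr hi him hj
  have hex : ∀ i, m ≤ i + K → i ≤ m → ∀ j < d, (F i t j : ℤ) = A e i t j := by
    intro i hi him j hj
    exact h₃ j hj m (by omega) e F he (hS.mono hj.le) i t him fun l hl =>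
      (hbd i hi him l (by omega)).1
  have hexR : ∀ i, m ≤ i + K → i ≤ m → ∀ j < d, (F i t j : ℝ) = (A e i t j : ℝ) := by
    intro i hi him j hj
    exact_mod_cast hex i hi him j hj
  have hinc : ∀ i, m ≤ i + K → ∀ g, i + g ≤ m → ∀ j, j + 1 < d →
      g * (η' / 2 * (m : ℝ) ^ j) ≤ (F (i + g) t (j + 1) : ℝ) - (F i t (j + 1) : ℝ) ∧
      (F (i + g) t (j + 1) : ℝ) - (F i t (j + 1) : ℝ) ≤ g * (m : ℝ) ^ j := by
    intro i hi g hg j hj
    rw [hexR (i + g) (by omega) hg (j + 1) hj, hexR i hi (by omega) (j + 1) hj]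
    exact T2_incr he1 hη'0 hA' hKm hKr hi hj g hg
  obtain ⟨hm1, hF, -, τ₀, hτ₀⟩ := h₁ m (by omega) e F he hS m t le_rfl hA'
  obtain ⟨m', hm'⟩ : ∃ m' : ℕ, m' + ((d + 3) * s + 1) = m := ⟨m - ((d + 3) * s + 1), by omega⟩
  have hm'K : m ≤ m' + K := by omega
  obtain ⟨hm'1, -, -, τ, hτ⟩ := h₂ m (by omega) e F he hS m' t (by omega) fun j hj =>
    (hbd m' hm'K (by omega) j hj).1
  -- the numbers grow with the number of variables
  have hmon : ∀ j < d, F (m' - 1) t j ≤ F (m - 1) t j := by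
    intro j hj
    rcases j with _ | j
    · rw [hS.deg_zero he1, hS.deg_zero he1]
    · obtain ⟨h6, -⟩ := hinc (m' - 1) (by omega) (m - 1 - (m' - 1)) (by omega) j hj
      rw [show m' - 1 + (m - 1 - (m' - 1)) = m - 1 by omega] at h6
      have h7 : (0 : ℝ) ≤ ((m - 1 - (m' - 1) : ℕ) : ℝ) * (η' / 2 * (m : ℝ) ^ j) := by positivity
      have h8 : (F (m' - 1) t (j + 1) : ℝ) ≤ (F (m - 1) t (j + 1) : ℝ) := by linarith
      exact_mod_cast h8
  have hsds : (d + 3) * s = (d + 1) * s + 2 * s := by ring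
  refine ⟨hm1, hF, τ, s, ⟨?_, hτ.mono, ?_, hτ.ratio, ?_, hτ₀.small, hτ₀.pos⟩,
    ⟨fun i _ => T2_one (by omega) he hS i t, hs3, ?_, ?_, ?_, ?_⟩⟩
  · intro j hj hjd
    have := hτ.lt j hj hjd
    omega
  · intro j hj i hi him
    rcases Nat.lt_or_ge i m' with h6 | h6
    · exact hτ.recu j hj i hi h6
    · have h7 := hex (i + 1) (by omega) (by omega) (j + 1) hj
      have h8 := hex i (by omega) (by omega) (j + 1) hj
      have h9 := hex (i + 1) (by omega) (by omega) j (by omega)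
      have h10 := A_pascal he1 i t j
      rw [← h7, ← h8, ← h9] at h10
      exact_mod_cast h10
  · intro j hj hjd
    refine (hτ.last j hj hjd).trans (mul_le_mul_of_nonneg_left ?_ hε.le)
    exact_mod_cast hmon j hjd
  · intro j hj hjd
    have := hτ.lt j hj hjd
    omega
  · intro j hj hjd i hi him
    obtain ⟨j, rfl⟩ : ∃ j', j = j' + 1 := ⟨j - 1, by omega⟩
    obtain ⟨-, h6⟩ := hinc (i - 2 * s) (by omega) s (by omega) j hjd
    rw [show i - 2 * s + s = i - s by omega] at h6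
    have h7 := (hbd (i - 2 * s) (by omega) (by omega) (j + 1) hjd).1
    rw [← hexR (i - 2 * s) (by omega) (by omega) (j + 1) hjd] at h7
    have h8 : (s : ℝ) * (m : ℝ) ^ j ≤ η' / 2 * (m : ℝ) ^ (j + 1) := by
      have h9 : (s : ℝ) * (m : ℝ) ^ j ≤ θ * m * (m : ℝ) ^ j :=
        mul_le_mul_of_nonneg_right hs1 (by positivity)
      have h10 : (0 : ℝ) ≤ (m : ℝ) * (m : ℝ) ^ j := by positivity
      rw [pow_succ]
      nlinarith
    show (F (i - s) t (j + 1) : ℝ) ≤ 2 * (F (i - 2 * s) t (j + 1) : ℝ)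
    linarith
  · intro j hj hjd i hi him
    obtain ⟨j, rfl⟩ : ∃ j', j = j' + 1 := ⟨j - 1, by omega⟩
    obtain ⟨h6, -⟩ := hinc (i - s) (by omega) s (by omega) j hjd
    rw [show i - s + s = i by omega] at h6
    have h7 := (hbd i (by omega) him (j + 1) hjd).2
    rw [← hexR i (by omega) him (j + 1) hjd] at h7
    have h8 : θ * η' / 4 * (m : ℝ) ^ (j + 1) ≤ (s : ℝ) * (η' / 2 * (m : ℝ) ^ j) := by
      have h9 : θ * m / 2 * (η' / 2 * (m : ℝ) ^ j) ≤ (s : ℝ) * (η' / 2 * (m : ℝ) ^ j) :=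
        mul_le_mul_of_nonneg_right hs2 (by positivity)
      refine le_trans (le_of_eq ?_) h9
      rw [pow_succ]
      ring
    have h9 : θ * η' / 4 * (F i t (j + 1) : ℝ) ≤ θ * η' / 4 * (m : ℝ) ^ (j + 1) :=
      mul_le_mul_of_nonneg_left h7 (by positivity)
    show θ * η' / 4 * (F i t (j + 1) : ℝ) ≤ (F i t (j + 1) : ℝ) - (F (i - s) t (j + 1) : ℝ)
    linarith
  · intro j hj hjd
    obtain ⟨j, rfl⟩ : ∃ j', j = j' + 1 := ⟨j - 1, by omega⟩
    obtain ⟨-, h6⟩ := hinc (m - 1 - s) (by omega) s (by omega) j hjd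
    rw [show m - 1 - s + s = m - 1 by omega] at h6
    have h7 := (hbd (m - 1 - s) (by omega) (by omega) (j + 1) hjd).1
    rw [← hexR (m - 1 - s) (by omega) (by omega) (j + 1) hjd] at h7
    have h8 : (s : ℝ) * (m : ℝ) ^ j ≤ η' / 2 * (m : ℝ) ^ (j + 1) := by
      have h9 : (s : ℝ) * (m : ℝ) ^ j ≤ θ * m * (m : ℝ) ^ j :=
        mul_le_mul_of_nonneg_right hs1 (by positivity)
      have h10 : (0 : ℝ) ≤ (m : ℝ) * (m : ℝ) ^ j := by positivity
      rw [pow_succ]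
      nlinarith
    show (F (m - 1) t (j + 1) : ℝ) ≤ 2 * (F (m - 1 - s) t (j + 1) : ℝ)
    linarith

end Pool.Agent.XE
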