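import Pool.Agent.XD.Comb.KK
import Pool.Agent.XE.SmallE
import Pool.Agent.XE.Grow
import Pool.Agent.XE.Thr2

/-!
# XE, module T: the comparison of the ranks

`u = |EE (d - e)| / A e m t (d - e)`, `u₁ = |EE (d - 1)| / A e m t (d - 1)`.  `e t = d`: `EE 0 ⊆ {0}`, `u ∈ {0, 1}`, and
`u = 0` implies `u₁ = 0` (`EE_empty`), `u₁ ≤ 1`.  `e t < d`: if `u ≤ τ₀` then `u₁ ≤ u / 4` (`small_chain`, `ψ ≤ η / 4`,
`A e m t (d - 1) ≥ η m^(d-1)`, `A e m t (d - e) ≤ m^(d-e)`); otherwise `kk_gain` with `C ε ≤ κ τ₀ / 2`, `x = 1 - u`.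
-/

set_option autoImplicit false

namespace Pool.Agent.XE

open Finset Pool.Agent.XD

theorem star2 (d : ℕ) (hd : 2 ≤ d) (η : ℝ) (hη : 0 < η) : ∃ κ : ℝ, 0 < κ ∧ κ ≤ 1 / 2 ∧
    ∃ n₁ : ℕ, ∀ m, n₁ ≤ m →
    ∀ (e : ℕ → ℕ) (F : ℕ → ℕ → ℕ → ℕ), (∀ t, 2 ≤ e t) → Sys d e F → ∀ t,
      (∀ j < d, η * (m : ℝ) ^ j ≤ (A e m t j : ℝ)) → e t ≤ d →
      ∃ u u₁ : ℝ, 0 ≤ u ∧ u ≤ 1 ∧
        (F m (t + 1) d : ℝ) = (F m t d : ℝ) - u * (A e m t (d - e t) : ℝ) ∧
        (F (m - 1) t d : ℝ) = (F m t d : ℝ) - u₁ * (A e m t (d - 1) : ℝ) ∧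
        u₁ ≤ u - κ * u * (1 - u) := by
  obtain ⟨ω, hω, hω1, hthr⟩ := thr2 d hd η hη
  obtain ⟨κ, C, hκ, hκ1, hC, hkk⟩ := kk_gain d ω hω hω1
  obtain ⟨τ₀, hτ₀, hsm⟩ := small_chain d (η / 4) (by positivity)
  have hε : 0 < κ * τ₀ / (2 * (C + 1)) := by positivity
  obtain ⟨n₁, hn₁⟩ := hthr (κ * τ₀ / (2 * (C + 1))) hε
  have hCε : C * (κ * τ₀ / (2 * (C + 1))) ≤ κ * τ₀ / 2 := by
    rw [show C * (κ * τ₀ / (2 * (C + 1))) = κ * τ₀ / 2 * (C / (C + 1)) by field_simp]
    have h1 : C / (C + 1) ≤ 1 := by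
      rw [div_le_one (by positivity)]
      linarith
    have h2 : 0 ≤ κ * τ₀ / 2 := by positivity
    nlinarith
  refine ⟨κ / 2, by positivity, by linarith, n₁, fun m hm e F he hS t hA het => ?_⟩
  obtain ⟨hm1, hF, τ, s, hT, hG⟩ := hn₁ m hm e F he hS t hA
  obtain ⟨N, hN, hk1, hk2⟩ := hS.ker m t hm1
  have hk1' := hk1 het
  have hk2' := hk2 (by omega)
  have het2 := he t
  have he1 : ∀ t, 1 ≤ e t := fun t => le_trans (by norm_num) (he t)
  have hmR : (1 : ℝ) ≤ m := by exact_mod_cast hm1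
  -- the numbers
  have hApos : ∀ j < d, (0 : ℝ) < (A e m t j : ℝ) := fun j hj =>
    lt_of_lt_of_le (by positivity) (hA j hj)
  have hAposZ : ∀ j < d, (0 : ℤ) ≤ A e m t j := fun j hj => by exact_mod_cast (hApos j hj).le
  have hlay : ∀ j < d, ((lay N m j).card : ℝ) = (A e m t j : ℝ) := fun j hj => by
    rw [hN.cnt m le_rfl j hj.le]
    exact_mod_cast hF j hj
  have hcard : ∀ i, 1 ≤ i → i ≤ d →
      ((EE N m d (d - i)).card : ℝ) + (kk N m d i : ℝ) = (A e m t (d - i) : ℝ) := by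
    intro i hi hid
    rw [← hlay (d - i) (by omega)]
    exact_mod_cast EE_card N m hid
  have hE := hcard (e t) (he1 t) het
  have hE1 := hcard 1 le_rfl (by omega)
  set Ee : ℝ := ((EE N m d (d - e t)).card : ℝ) with hEe
  set E1 : ℝ := ((EE N m d (d - 1)).card : ℝ) with hE1'
  have hEe0 : 0 ≤ Ee := by positivity
  have hE10 : 0 ≤ E1 := by positivity
  set Ae : ℝ := (A e m t (d - e t) : ℝ) with hAe
  set A1 : ℝ := (A e m t (d - 1) : ℝ) with hA1
  have hAe0 : 0 < Ae := hApos (d - e t) (by omega)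
  have hA10 : 0 < A1 := hApos (d - 1) (by omega)
  have hkke : (0 : ℝ) ≤ (kk N m d (e t) : ℝ) := Nat.cast_nonneg _
  have hkk1 : (0 : ℝ) ≤ (kk N m d 1 : ℝ) := Nat.cast_nonneg _
  have c1 : (F m t (d - e t) : ℝ) = Ae := by
    rw [hAe]
    exact_mod_cast hF (d - e t) (by omega)
  have c2 : (F m t (d - 1) : ℝ) = A1 := by
    rw [hA1]
    exact_mod_cast hF (d - 1) (by omega)
  have c3 : (F m (t + 1) d : ℝ) + F m t (d - e t) = F m t d + kk N m d (e t) := by
    exact_mod_cast hk1'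
  have c4 : (F (m - 1) t d : ℝ) + F m t (d - 1) = F m t d + kk N m d 1 := by
    exact_mod_cast hk2'
  have hu : Ee / Ae * Ae = Ee := div_mul_cancel₀ _ hAe0.ne'
  have hu1 : E1 / A1 * A1 = E1 := div_mul_cancel₀ _ hA10.ne'
  have hu0' : 0 ≤ Ee / Ae := by positivity
  have hu1' : Ee / Ae ≤ 1 := by
    rw [div_le_one hAe0]
    linarith
  have hv1' : E1 / A1 ≤ 1 := by
    rw [div_le_one hA10]
    linarith
  refine ⟨Ee / Ae, E1 / A1, hu0', hu1', ?_, ?_, ?_⟩
  · rw [hu]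
    linarith
  · rw [hu1]
    linarith
  · -- the comparison
    rcases Nat.lt_or_ge (e t) d with hlt | hge
    · by_cases hu2 : Ee / Ae ≤ τ₀
      · -- small ranks
        have hAepow : Ae ≤ (m : ℝ) ^ (d - e t) := by
          have := A_le_pow he1 (D := d) hAposZ (j := d - e t) (by omega)
          rw [hAe]
          exact_mod_cast this
        have h1 : Ee ≤ τ₀ * (m : ℝ) ^ (d - e t) := by
          calc Ee = Ee / Ae * Ae := hu.symm
            _ ≤ τ₀ * (m : ℝ) ^ (d - e t) := by gcongr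
        have h2 := hsm (e t) m N (fun i j => F i t j) het2 (by omega) hm1 hN h1
        have h3 : E1 / A1 ≤ (Ee / Ae) / 4 := by
          rw [div_le_iff₀ hA10]
          have h4 : η * (m : ℝ) ^ (d - 1) ≤ A1 := hA (d - 1) (by omega)
          have h5 : (m : ℝ) ^ (e t - 1) * (m : ℝ) ^ (d - e t) = (m : ℝ) ^ (d - 1) := by
            rw [← pow_add]
            congr 1
            omega
          have h6 : Ee ≤ Ee / Ae * (m : ℝ) ^ (d - e t) := by
            calc Ee = Ee / Ae * Ae := hu.symm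
              _ ≤ _ := by gcongr
          calc E1 ≤ η / 4 * (m : ℝ) ^ (e t - 1) * Ee := h2
            _ ≤ η / 4 * (m : ℝ) ^ (e t - 1) * (Ee / Ae * (m : ℝ) ^ (d - e t)) := by gcongr
            _ = Ee / Ae / 4 * (η * ((m : ℝ) ^ (e t - 1) * (m : ℝ) ^ (d - e t))) := by ring
            _ = Ee / Ae / 4 * (η * (m : ℝ) ^ (d - 1)) := by rw [h5]
            _ ≤ Ee / Ae / 4 * A1 := by gcongr
        nlinarith [mul_nonneg hu0' (by linarith : (0 : ℝ) ≤ 1 - Ee / Ae),
          mul_nonneg hu0' (mul_nonneg hκ.le hu0')]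
      · -- the gain
        push Not at hu2
        have hx : (1 - Ee / Ae) = (kk N m d (e t) : ℝ) / ((F m t (d - e t) : ℕ) : ℝ) := by
          rw [c1, eq_div_iff hAe0.ne', sub_mul, hu, one_mul]
          linarith
        have h1 := hkk (e t) m N (fun i j => F i t j) τ (κ * τ₀ / (2 * (C + 1))) s het2
          (by omega) hε.le hm1 hN hT hG (1 - Ee / Ae) hx
        have hx1 : (kk N m d 1 : ℝ) / ((F m t (d - 1) : ℕ) : ℝ) = 1 - E1 / A1 := by
          rw [c2, div_eq_iff hA10.ne', sub_mul, hu1, one_mul]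
          linarith
        rw [hx1] at h1
        set u : ℝ := Ee / Ae
        have h2 : κ * τ₀ / 2 ≤ κ * u / 2 := by nlinarith
        have h3 : (1 - u) * (C * (κ * τ₀ / (2 * (C + 1)))) ≤ (1 - u) * (κ * u / 2) :=
          mul_le_mul_of_nonneg_left (hCε.trans h2) (by linarith)
        nlinarith
    · -- simple points
      have hed : e t = d := le_antisymm het hge
      have hAe1 : Ae = 1 := by
        rw [hAe, hed, Nat.sub_self, A_deg_zero he1]
        norm_num
      rw [hAe1, div_one]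
      rcases Nat.eq_zero_or_pos (EE N m d (d - e t)).card with h0 | h0
      · have h1 : EE N m d (d - e t) = ∅ := card_eq_zero.1 h0
        have h2 := EE_empty hN hm1 (j := d - e t) (i := d - 1) (by omega) (by omega) h1
        have h3 : Ee = 0 := by
          rw [hEe, h0]
          norm_num
        have h4 : E1 = 0 := by
          rw [hE1', h2]
          norm_num
        rw [h3, h4]
        norm_num
      · have h1 : (1 : ℝ) ≤ Ee := by
          rw [hEe]
          exact_mod_cast h0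
        have h2 : Ee ≤ 1 := by
          rw [hAe1] at hE
          linarith
        have h3 : Ee = 1 := le_antisymm h2 h1
        rw [h3]
        linarith

end Pool.Agent.XE
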