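import Pool.Agent.XE.Soft
import Pool.Agent.XE.Star2
import Pool.Agent.XE.Bd
import Pool.Agent.XD.Struct

/-!
# XE, module M: the transport

`main_bound`: `n₁ ≥` the thresholds of `bd`, `star2 (η of bd)` and `A e m t (d - e) ≤ m^(d-2) ≤ η m^(d-1) / 2` for `m ≥ n₁`;
`lam = κ / 2`, `c = n^(d-1) / lam`.  Induction on `t`, for all `n₁ ≤ m ≤ n`.  `t = 0`: `FF = A ≤ BB`.  `m > n₁`: `bd` at
`(m, t + 1)`; if not `FF = 0` then the numbers at `(m, t)` are larger (`A_anti_t`), `star2`, `soft_step`.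
`m = n₁`: `FF ≤ n₁^d ≤ c / 4 ≤ BB c x` if `x ≥ -c` (`n` large), and if `A e n₁ t d < -c` then `(n₁ + t)^d > c`, so
`t > n₁^d` and `FF = 0` (`Sys_small`).
`xe`: `main_bound` at `m = n`, `BB_lt_add_one`, `BB_lt_one`, `xd_lower`, `bd`, `layer`, `kill`.
-/

set_option autoImplicit false

namespace Pool.Agent.XE

open Finset Pool.Agent.XD

/-- The bound for a fixed number of variables. -/
private theorem base_bound {d n₁ : ℕ} (hn₁ : 1 ≤ n₁) {c : ℝ} (h1 : 4 * (n₁ : ℝ) ^ d ≤ c)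
    (h2 : ((n₁ : ℝ) + (n₁ : ℝ) ^ d) ^ d ≤ c) (e : ℕ → ℕ) (he : ∀ s, 2 ≤ e s) (t : ℕ)
    (ht : ∀ s < t, e s ≤ d) : (FF e n₁ t d : ℝ) ≤ BB c (A e n₁ t d : ℝ) := by
  have hF : Sys d e (FF e) := sys_FF d e fun s => le_trans (by norm_num) (he s)
  have hn : (1 : ℝ) ≤ n₁ := by exact_mod_cast hn₁
  have hc : 0 < c := by
    refine lt_of_lt_of_le ?_ h1
    positivity
  rcases Sys_small hF he n₁ hn₁ t ht with h | h
  · rw [h]
    simpa using BB_nonneg hc _
  · have h3 : (FF e n₁ t d : ℝ) + t ≤ (n₁ : ℝ) ^ d := by exact_mod_cast h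
    have h4 : (0 : ℝ) ≤ t := Nat.cast_nonneg t
    have h5 : (0 : ℝ) ≤ FF e n₁ t d := Nat.cast_nonneg _
    have h6 : |(A e n₁ t d : ℝ)| ≤ ((n₁ : ℝ) + t) ^ d := by
      have := A_abs he n₁ t d
      exact_mod_cast this
    have h7 : ((n₁ : ℝ) + t) ^ d ≤ ((n₁ : ℝ) + (n₁ : ℝ) ^ d) ^ d :=
      pow_le_pow_left₀ (by positivity) (by linarith) _
    have h8 : -c ≤ (A e n₁ t d : ℝ) := by
      have := (abs_le.1 (h6.trans (h7.trans h2))).1
      exact this
    have h9 := quarter_le_BB hc h8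
    linarith

theorem main_bound (d : ℕ) (hd : 2 ≤ d) : ∃ lam : ℝ, 0 < lam ∧ ∃ n₁ n₀ : ℕ, n₁ ≤ n₀ ∧
    ∀ n, n₀ ≤ n → ∀ e : ℕ → ℕ, (∀ s, 2 ≤ e s) → ∀ t, (∀ s < t, e s ≤ d) → ∀ m, n₁ ≤ m → m ≤ n →
      (FF e m t d : ℝ) ≤ BB ((n : ℝ) ^ (d - 1) / lam) (A e m t d : ℝ) := by
  obtain ⟨η, hη, a₁, hbd⟩ := bd d hd
  obtain ⟨κ, hκ, hκ1, a₂, hst⟩ := star2 d hd η hη
  obtain ⟨a₃, ha₃⟩ := exists_nat_ge (2 / η)
  set n₁ : ℕ := a₁ + a₂ + a₃ + 1 with hn₁
  obtain ⟨n₂, hn₂⟩ : ∃ n₂ : ℕ, 4 * (n₁ : ℝ) ^ d ≤ n₂ ∧ ((n₁ : ℝ) + (n₁ : ℝ) ^ d) ^ d ≤ n₂ := by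
    refine ⟨4 * n₁ ^ d + (n₁ + n₁ ^ d) ^ d, ?_, ?_⟩
    · push_cast
      have : (0 : ℝ) ≤ ((n₁ : ℝ) + (n₁ : ℝ) ^ d) ^ d := by positivity
      linarith
    · push_cast
      have : (0 : ℝ) ≤ 4 * (n₁ : ℝ) ^ d := by positivity
      linarith
  refine ⟨κ / 2, by positivity, n₁, n₁ + n₂, by omega, fun n hn e he => ?_⟩
  have hn1 : 1 ≤ n := by omega
  have hnR : (1 : ℝ) ≤ n := by exact_mod_cast hn1
  set c : ℝ := (n : ℝ) ^ (d - 1) / (κ / 2) with hc
  have hc0 : 0 < c := by positivity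
  have hcn : (n : ℝ) ^ (d - 1) = κ / 2 * c := by
    rw [hc]
    field_simp
  have hnc : (n : ℝ) ≤ c := by
    have h1 : (n : ℝ) ≤ (n : ℝ) ^ (d - 1) := by
      calc (n : ℝ) = (n : ℝ) ^ 1 := (pow_one _).symm
        _ ≤ (n : ℝ) ^ (d - 1) := pow_le_pow_right₀ hnR (by omega)
    rw [hcn] at h1
    have h2 : κ / 2 * c ≤ 1 * c := mul_le_mul_of_nonneg_right (by linarith) hc0.le
    linarith
  have hn₂c : (n₂ : ℝ) ≤ c := by
    have h1 : (n₂ : ℝ) ≤ n := by
      have : n₂ ≤ n := by omega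
      exact_mod_cast this
    linarith
  have he1 : ∀ s, 1 ≤ e s := fun s => le_trans (by norm_num) (he s)
  have hF : Sys d e (FF e) := sys_FF d e he1
  intro t
  induction t with
  | zero =>
    intro _ m _ _
    rw [hF.zero m d le_rfl, A_zero]
    simpa using le_BB hc0 ((Nat.multichoose m d : ℤ) : ℝ)
  | succ t ih =>
    intro ht m hm hmn
    rcases Nat.eq_or_lt_of_le hm with h0 | h0
    · rw [← h0]
      exact base_bound (by omega) (hn₂.1.trans hn₂c) (hn₂.2.trans hn₂c) e he (t + 1) ht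
    have ih' := ih fun s hs => ht s (by omega)
    rcases hbd m (by omega) e he (t + 1) ht with h | h
    · rw [h]
      simpa using BB_nonneg hc0 _
    have hm1 : 1 ≤ m := by omega
    have hmR : (1 : ℝ) ≤ m := by exact_mod_cast hm1
    have hpos : ∀ j < d, 0 ≤ A e m (t + 1) j := by
      intro j hj
      have h1 : (0 : ℝ) ≤ η * (m : ℝ) ^ j := by positivity
      exact_mod_cast h1.trans (h j hj)
    have hanti : ∀ j < d, A e m (t + 1) j ≤ A e m t j := fun j hj =>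
      A_anti_t he1 hpos (Nat.le_succ t) hj.le
    have hreg : ∀ j < d, η * (m : ℝ) ^ j ≤ (A e m t j : ℝ) := by
      intro j hj
      refine (h j hj).trans ?_
      exact_mod_cast hanti j hj
    have hpos' : ∀ j < d, 0 ≤ A e m t j := fun j hj => (hpos j hj).trans (hanti j hj)
    have hle : ∀ j < d, (A e m t j : ℝ) ≤ (m : ℝ) ^ j := by
      intro j hj
      exact_mod_cast A_le_pow he1 hpos' hj.le
    have het : e t ≤ d := ht t (by omega)
    have het2 := he t
    obtain ⟨u, u₁, hu, hu1, hH', hH₁, hF'⟩ := hst m (by omega) e (FF e) he hF t hreg het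
    have hA1 : (A e m (t + 1) d : ℝ) = (A e m t d : ℝ) - (A e m t (d - e t) : ℝ) := by
      rw [A_succ, if_pos het]
      push_cast
      ring
    have hA2 : (A e (m - 1) t d : ℝ) = (A e m t d : ℝ) - (A e m t (d - 1) : ℝ) := by
      have h1 := A_pascal he1 (m - 1) t (d - 1)
      rw [Nat.sub_add_cancel hm1, Nat.sub_add_cancel (by omega : 1 ≤ d)] at h1
      have h2 : (A e m t d : ℝ) = (A e (m - 1) t d : ℝ) + (A e m t (d - 1) : ℝ) := by
        exact_mod_cast h1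
      linarith
    rw [hA1]
    have hα : (A e m t (d - e t) : ℝ) ≤ (A e m t (d - 1) : ℝ) / 2 := by
      have h1 := hle (d - e t) (by omega)
      have h2 : (m : ℝ) ^ (d - e t) ≤ (m : ℝ) ^ (d - 2) := pow_le_pow_right₀ hmR (by omega)
      have h3 := hreg (d - 1) (by omega)
      have h4 : 2 ≤ η * m := by
        rw [div_le_iff₀ hη] at ha₃
        have h5 : (a₃ : ℝ) ≤ m := by
          have : a₃ ≤ m := by omega
          exact_mod_cast this
        nlinarith
      have h5 : (m : ℝ) ^ (d - 1) = (m : ℝ) ^ (d - 2) * m := by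
        rw [← pow_succ]
        congr 1
        omega
      have h6 : 0 < (m : ℝ) ^ (d - 2) := by positivity
      rw [h5] at h3
      have h7 : 2 * (m : ℝ) ^ (d - 2) ≤ η * m * (m : ℝ) ^ (d - 2) :=
        mul_le_mul_of_nonneg_right h4 h6.le
      linarith
    have hα₁ : (A e m t (d - 1) : ℝ) ≤ κ / 2 * c := by
      rw [← hcn]
      refine (hle (d - 1) (by omega)).trans (pow_le_pow_left₀ (by positivity) ?_ _)
      exact_mod_cast hmn
    have hα0 : (0 : ℝ) ≤ (A e m t (d - e t) : ℝ) := by exact_mod_cast hpos' (d - e t) (by omega)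
    have hIH := ih' m hm hmn
    have hIH₁ := ih' (m - 1) (by omega) (by omega)
    rw [hA2] at hIH₁
    exact soft_step hc0 hκ hκ1 hα0 hα hα₁ hIH hIH₁ hu hu1 hH' hH₁ hF'

private theorem xe_two (d : ℕ) (hd : 2 ≤ d) : ∃ C : ℝ, 0 < C ∧ ∃ n₀ : ℕ, ∀ m, n₀ ≤ m →
    ∀ e : ℕ → ℕ, (∀ s, 2 ≤ e s) → ∀ t, (∀ s < t, e s ≤ d) →
      ((∀ j < d, 0 < A e m t j) → C * (m : ℝ) ^ (d - 1) * Real.log m ≤ (A e m t d : ℝ) →
        (FF e m t d : ℤ) = A e m t d) ∧
      ((∃ j < d, A e m t j ≤ 0) ∨ (A e m t d : ℝ) ≤ -(C * (m : ℝ) ^ (d - 1) * Real.log m) →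
        FF e m t d = 0) := by
  obtain ⟨lam, hlam, n₁, n₀, hn, hM⟩ := main_bound d hd
  obtain ⟨η, hη, a₁, hbd⟩ := bd d hd
  obtain ⟨c, hc, a₂, hL⟩ := layer d
  obtain ⟨a₃, hlow⟩ := xd_lower d c hc
  obtain ⟨a₄, ha₄⟩ := exists_nat_ge (1 / lam)
  refine ⟨((d : ℝ) + 1) / lam, by positivity, n₀ + a₁ + a₂ + a₃ + a₄ + 2, fun m hm e he t ht => ?_⟩
  have he1 : ∀ s, 1 ≤ e s := fun s => le_trans (by norm_num) (he s)
  have hF : Sys d e (FF e) := sys_FF d e he1
  have hm2 : (2 : ℝ) ≤ m := by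
    have : 2 ≤ m := by omega
    exact_mod_cast this
  have hm0 : (0 : ℝ) < m := by linarith
  have hlog : 0 < Real.log m := Real.log_pos (by linarith)
  set g : ℝ := (m : ℝ) ^ (d - 1) / lam with hg
  have hg0 : 0 < g := by positivity
  have hb := hM m (by omega) e he t ht m (by omega) le_rfl
  rw [← hg] at hb
  have hgl : g * Real.log g < ((d : ℝ) + 1) / lam * (m : ℝ) ^ (d - 1) * Real.log m := by
    have h1 : Real.log g ≤ d * Real.log m := by
      rw [hg, Real.log_div (by positivity) hlam.ne', Real.log_pow]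
      have h2 : -Real.log lam ≤ Real.log m := by
        rw [← Real.log_inv]
        refine Real.log_le_log (by positivity) ?_
        rw [← one_div]
        refine ha₄.trans ?_
        have : a₄ ≤ m := by omega
        exact_mod_cast this
      have h3 : ((d - 1 : ℕ) : ℝ) = (d : ℝ) - 1 := by
        rw [Nat.cast_sub (by omega)]
        simp
      rw [h3]
      linarith
    have h2 : ((d : ℝ) + 1) / lam * (m : ℝ) ^ (d - 1) * Real.log m =
        g * ((d + 1) * Real.log m) := by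
      rw [hg]
      ring
    rw [h2]
    refine mul_lt_mul_of_pos_left ?_ hg0
    linarith
  have hK : 0 < ((d : ℝ) + 1) / lam * (m : ℝ) ^ (d - 1) * Real.log m := by positivity
  refine ⟨fun h h' => ?_, fun h => ?_⟩
  · have h1 : ∀ j ≤ d, 0 < A e m t j := by
      intro j hj
      rcases lt_or_eq_of_le hj with hj | rfl
      · exact h j hj
      · have h2 : (0 : ℝ) < (A e m t j : ℝ) := lt_of_lt_of_le hK h'
        exact_mod_cast h2
    have h2 := (hL m (by omega) e he t).1 h1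
    have h3 := hlow m (by omega) e (FF e) he hF m t le_rfl h2
    have h4 := BB_lt_add_one hg0 (lt_of_lt_of_le hgl h')
    have h5 : ((FF e m t d : ℤ) : ℝ) < ((A e m t d + 1 : ℤ) : ℝ) := by
      push_cast
      linarith
    have h6 : (FF e m t d : ℤ) < A e m t d + 1 := by exact_mod_cast h5
    omega
  · rcases h with h | h
    · rcases hbd m (by omega) e he t ht with h1 | h1
      · exact h1
      · exfalso
        obtain ⟨j, hj, h2⟩ := h
        have h3 := h1 j hj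
        have h4 : (0 : ℝ) < η * (m : ℝ) ^ j := by positivity
        have h5 : (0 : ℝ) < (A e m t j : ℝ) := lt_of_lt_of_le h4 h3
        have h6 : 0 < A e m t j := by exact_mod_cast h5
        omega
    · have h4 := BB_lt_one hg0 (lt_of_le_of_lt h (neg_lt_neg hgl))
      have h5 : (FF e m t d : ℝ) < 1 := lt_of_le_of_lt hb h4
      have h6 : FF e m t d < 1 := by exact_mod_cast h5
      omega

theorem xe (d : ℕ) : ∃ C : ℝ, 0 < C ∧ ∃ n₀ : ℕ, ∀ m, n₀ ≤ m → ∀ e : ℕ → ℕ, (∀ s, 2 ≤ e s) →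
    ∀ t, (∀ s < t, e s ≤ d) →
      ((∀ j < d, 0 < A e m t j) → C * (m : ℝ) ^ (d - 1) * Real.log m ≤ (A e m t d : ℝ) →
        (FF e m t d : ℤ) = A e m t d) ∧
      ((∃ j < d, A e m t j ≤ 0) ∨ (A e m t d : ℝ) ≤ -(C * (m : ℝ) ^ (d - 1) * Real.log m) →
        FF e m t d = 0) := by
  rcases Nat.lt_or_ge d 2 with hd | hd
  · refine ⟨1, one_pos, 1, fun m hm e he t ht => ?_⟩
    have ht0 : t = 0 := by
      by_contra h
      have h1 := ht 0 (by omega)
      have h2 := he 0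
      omega
    subst ht0
    have hF : Sys d e (FF e) := sys_FF d e fun s => le_trans (by norm_num) (he s)
    have hmR : (1 : ℝ) ≤ m := by exact_mod_cast hm
    have hm0 : (0 : ℝ) < m := by linarith
    have hlog : 0 ≤ Real.log m := Real.log_nonneg hmR
    have hK : 0 ≤ 1 * (m : ℝ) ^ (d - 1) * Real.log m := by positivity
    have hA : 0 < A e m 0 d := by
      rw [A_zero]
      interval_cases d
      · simp
      · simp
        omega
    refine ⟨fun _ _ => ?_, fun h => ?_⟩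
    · rw [hF.zero m d le_rfl, A_zero]
    · exfalso
      rcases h with ⟨j, hj, h⟩ | h
      · have hj0 : j = 0 := by omega
        subst hj0
        rw [A_zero, Nat.multichoose_zero_right] at h
        norm_num at h
      · have h1 : (0 : ℝ) < (A e m 0 d : ℝ) := by exact_mod_cast hA
        linarith
  · exact xe_two d hd

end Pool.Agent.XE
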