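import Pool.Agent.XE.Final
import Pool.Agent.H74.V9.Fixed

/-!
# Fixed degree: the classification off a layer of width `C N^(d-1) log N`, in one statement

As `Pool.Agent.H74.V9.fixed_class`, with `C N^(d-1) log N` in place of `η N^d`.
-/

set_option autoImplicit false

namespace Pool.Agent.XE

open Finset Pool.Agent.H18.Fat Pool.Agent.H21.HD Pool.Agent.H21.NX
open Pool.Agent.H74.V9 (fro_one_add simple_exact)

/-- The classification for fixed `d`, off a thin layer. -/
theorem fixed_class2 (d : ℕ) : ∃ δ C : ℝ, 0 < δ ∧ 0 < C ∧ ∃ n₀ : ℕ,
    ∀ (r k : ℕ) (m : Fin k → ℕ), (∀ i, 1 ≤ m i ∧ m i ≤ d) →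
    ∀ N : ℕ, N + (univ.filter fun i => m i = d).card = r + 1 → n₀ ≤ N →
      ((∃ j < d, fro r (fun i => d + 1 - m i) univ j ≤ 0) ∨
          (fro r (fun i => d + 1 - m i) univ d : ℝ) ≤ -(C * (N : ℝ) ^ (d - 1) * Real.log N) →
        ForGeneralPoints r k fun p => Module.finrank ℂ (fatForms r d p m) = 0) ∧
      ((∀ j ≤ d, 0 < fro r (fun i => d + 1 - m i) univ j) →
        ForGeneralPoints r k fun p =>
          fro r (fun i => d + 1 - m i) univ d ≤ (Module.finrank ℂ (fatForms r d p m) : ℤ)) ∧
      (((∀ j < d, 0 < fro r (fun i => d + 1 - m i) univ j) ∧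
          (C * (N : ℝ) ^ (d - 1) * Real.log N ≤ (fro r (fun i => d + 1 - m i) univ d : ℝ) ∨
            C * (N : ℝ) ^ (d - 1) * Real.log N ≤ ((univ.filter fun i => m i = 1).card : ℝ))) ∨
          ((univ.filter fun i => d + 1 < 2 * m i ∧ m i < d).card : ℝ) ≤ δ * N →
        ForGeneralPoints r k fun p => (Module.finrank ℂ (fatForms r d p m) : ℤ) =
          max (fro r (fun i => d + 1 - m i) univ d) 0) := by
  classical
  obtain ⟨δ, hδ, hδ1, r₀, hU⟩ := Pool.Agent.VU.exact_coneU d
  obtain ⟨C, hC, n₂, hE⟩ := classify2 d
  obtain ⟨n₁, hX⟩ := Pool.Agent.XD.classify d 1 one_pos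
  refine ⟨δ / 2, 2 * C, by linarith, by linarith, n₁ + n₂ + r₀ + 2, fun r k m hm N hN hn => ?_⟩
  -- `a_1 = N`
  have hone : ∀ (k : ℕ) (m : Fin k → ℕ), (∀ i, 1 ≤ m i ∧ m i ≤ d) →
      N + (univ.filter fun i => m i = d).card = r + 1 →
      fro r (fun i => d + 1 - m i) univ 1 = (N : ℤ) := by
    intro k m hm hN
    have h1 := fro_one_add r (fun i => d + 1 - m i) univ fun i _ => by
      have := hm i
      omega
    have h2 : (univ.filter fun i => d + 1 - m i = 1) = univ.filter fun i => m i = d := by
      refine filter_congr fun i _ => ?_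
      have := hm i
      omega
    rw [h2] at h1
    have h3 : (N : ℤ) + ((univ.filter fun i => m i = d).card : ℤ) = r + 1 := by exact_mod_cast hN
    linarith
  have hN2 : (2 : ℝ) ≤ (N : ℝ) := by
    have : 2 ≤ N := by omega
    exact_mod_cast this
  have hlog : 0 < Real.log N := Real.log_pos (by linarith)
  obtain ⟨Λ, hΛ⟩ : ∃ Λ : ℝ, Λ = C * (N : ℝ) ^ (d - 1) * Real.log N := ⟨_, rfl⟩
  have hΛ2 : 2 * C * (N : ℝ) ^ (d - 1) * Real.log N = 2 * Λ := by
    rw [hΛ]
    ring
  have hΛ0 : 0 < Λ := by
    rw [hΛ]
    positivity
  obtain ⟨-, hX2, -⟩ := hX r k m hm (by rw [hone k m hm hN]; exact_mod_cast (by omega))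
  obtain ⟨hX1, hX3⟩ := hE r k m hm N (hone k m hm hN).symm (by omega)
  rw [← hΛ] at hX1 hX3
  rw [hΛ2]
  refine ⟨fun h => hX1 ?_, hX2, fun h => ?_⟩
  · rcases h with h | h
    · exact Or.inl h
    · exact Or.inr (by linarith)
  · rcases h with ⟨hpos, h⟩ | h
    · -- the first two cases
      rcases le_or_gt Λ (fro r (fun i => d + 1 - m i) univ d : ℝ) with h1 | h1
      · have h2 : 0 < fro r (fun i => d + 1 - m i) univ d := by
          have h3 : (0 : ℝ) < (fro r (fun i => d + 1 - m i) univ d : ℝ) := lt_of_lt_of_le hΛ0 h1
          exact_mod_cast h3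
        refine (hX3 hpos h1).mono fun p hp => ?_
        rw [hp, max_eq_left h2.le]
      · rcases le_or_gt (fro r (fun i => d + 1 - m i) univ d : ℝ) (-Λ) with h2 | h2
        · refine (hX1 (Or.inr h2)).mono fun p hp => ?_
          have h3 : fro r (fun i => d + 1 - m i) univ d ≤ 0 := by
            have h4 : (fro r (fun i => d + 1 - m i) univ d : ℝ) ≤ 0 := by linarith
            exact_mod_cast h4
          rw [hp, max_eq_right h3]
          rfl
        · -- the layer: many simple points
          have h3 : 2 * Λ ≤ ((univ.filter fun i => m i = 1).card : ℝ) := by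
            rcases h with h | h
            · linarith
            · exact h
          rcases Nat.lt_or_ge d 2 with hd | hd
          · have h4 : (((univ.filter fun i => d + 1 < 2 * m i ∧ m i < d).card : ℕ) : ℝ) ≤
                δ * ((r - (univ.filter fun i => d + 1 < 2 * m i ∧ m i = d).card : ℕ) : ℝ) := by
              have h5 : (univ.filter fun i => d + 1 < 2 * m i ∧ m i < d) = ∅ := by
                rw [filter_eq_empty_iff]
                intro i _
                have := hm i
                omega
              rw [h5, card_empty]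
              push_cast
              positivity
            refine hU r k m _ hm rfl ?_ h4
            have h6 : (univ.filter fun i => d + 1 < 2 * m i ∧ m i = d) = ∅ := by
              rw [filter_eq_empty_iff]
              intro i _
              have := hm i
              omega
            rw [h6, card_empty]
            omega
          · obtain ⟨k', m', hm', hc, hj', hd', hg⟩ := simple_exact r d k m hd hm
            have hN' : N + (univ.filter fun i => m' i = d).card = r + 1 := by rw [hc]; exact hN
            obtain ⟨-, hX3'⟩ := hE r k' m' hm' N (hone k' m' hm' hN').symm (by omega)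
            rw [← hΛ] at hX3'
            obtain ⟨n, hnn⟩ : ∃ n, n = (univ.filter fun i => m i = 1).card := ⟨_, rfl⟩
            rw [← hnn] at hd' hg h3
            have h4 : Λ ≤ (fro r (fun i => d + 1 - m' i) univ d : ℝ) := by
              rw [hd']
              push_cast
              linarith
            have h6 : Gen r (Fin k') fun p => (Module.finrank ℂ (fatForms r d p m') : ℤ) =
                fro r (fun i => d + 1 - m' i) univ d := hX3' (fun j hj => by
              rw [hj' j hj]
              exact hpos j hj) h4
            obtain ⟨p, hp1, hp2⟩ := (h6.and (gen_gdim r d m')).exists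
            rw [hp2] at hp1
            have hg2 : Gen r (Fin k) fun p => Module.finrank ℂ (fatForms r d p m) = gdim r d m :=
              gen_gdim r d m
            -- the lower bound
            rcases lt_or_ge 0 (fro r (fun i => d + 1 - m i) univ d) with h7 | h7
            · have h8 : Gen r (Fin k) fun p => fro r (fun i => d + 1 - m i) univ d ≤
                  (Module.finrank ℂ (fatForms r d p m) : ℤ) := hX2 fun j hj => by
                rcases lt_or_eq_of_le hj with hj | rfl
                · exact hpos j hj
                · exact h7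
              have h9 : Gen r (Fin k) fun p => (Module.finrank ℂ (fatForms r d p m) : ℤ) =
                  max (fro r (fun i => d + 1 - m i) univ d) 0 := by
                refine (hg2.and h8).mono ?_
                rintro p ⟨hq1, hq2⟩
                omega
              exact h9
            · have h9 : Gen r (Fin k) fun p => (Module.finrank ℂ (fatForms r d p m) : ℤ) =
                  max (fro r (fun i => d + 1 - m i) univ d) 0 := by
                refine hg2.mono ?_
                intro p hq1
                omega
              exact h9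
    · -- few large points
      have h1 : (univ.filter fun i => d + 1 < 2 * m i ∧ m i = d).card ≤
          (univ.filter fun i => m i = d).card :=
        card_le_card fun i hi => by
          rw [mem_filter] at hi ⊢
          exact ⟨hi.1, hi.2.2⟩
      refine hU r k m _ hm rfl (by omega) (h.trans ?_)
      have h2 : N ≤ 2 * (r - (univ.filter fun i => d + 1 < 2 * m i ∧ m i = d).card) := by omega
      have h3 : (N : ℝ) ≤ 2 * ((r - (univ.filter fun i => d + 1 < 2 * m i ∧ m i = d).card : ℕ) : ℝ) := by
        exact_mod_cast h2
      nlinarith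

end Pool.Agent.XE
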