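import Mathlib

/-!
# XE, module S: the softplus potential

`BB c x = c log (1 + e^(x / c))`, `pp c x = BB'`.  `BB_sub_le` is convexity: with `p = pp c a`, `q = 1 - p`,
`y = h / c`: `q + p e^(-y) ≥ e^(-p y)`.  `le_BB_sub`: `y ≤ κ / 2`,
`q + p e^(-y) ≤ e^(-y p (1 - κ q))`: for `p ≥ 1/2` it is `e^(-y) (1 + q (e^y - 1)) ≤ exp (-y + q (y + y^2))`, for
`p < 1/2` it is `1 - p (1 - e^(-y)) ≤ exp (-p (y - y^2 / 2))`.
-/

set_option autoImplicit false

namespace Pool.Agent.XE

/-- The potential. -/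
noncomputable def BB (c x : ℝ) : ℝ := c * Real.log (1 + Real.exp (x / c))

/-- Its derivative. -/
noncomputable def pp (c x : ℝ) : ℝ := Real.exp (x / c) / (1 + Real.exp (x / c))

theorem pp_pos (c x : ℝ) : 0 < pp c x := by
  unfold pp
  positivity

theorem pp_lt_one (c x : ℝ) : pp c x < 1 := by
  unfold pp
  rw [div_lt_one (by positivity)]
  linarith [Real.exp_pos (x / c)]

theorem BB_nonneg {c : ℝ} (hc : 0 < c) (x : ℝ) : 0 ≤ BB c x := by
  unfold BB
  have : 0 ≤ Real.log (1 + Real.exp (x / c)) :=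
    Real.log_nonneg (by linarith [Real.exp_pos (x / c)])
  positivity

theorem le_BB {c : ℝ} (hc : 0 < c) (x : ℝ) : x ≤ BB c x := by
  unfold BB
  have h1 : x / c ≤ Real.log (1 + Real.exp (x / c)) := by
    rw [Real.le_log_iff_exp_le (by positivity)]
    linarith
  have h2 : c * (x / c) = x := by field_simp
  calc x = c * (x / c) := h2.symm
    _ ≤ _ := mul_le_mul_of_nonneg_left h1 hc.le

theorem BB_mono {c : ℝ} (hc : 0 < c) {x y : ℝ} (h : x ≤ y) : BB c x ≤ BB c y := by
  unfold BB
  apply mul_le_mul_of_nonneg_left _ hc.le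
  apply Real.log_le_log (by positivity)
  have : x / c ≤ y / c := div_le_div_of_nonneg_right h hc.le
  linarith [Real.exp_le_exp.2 this]

/-- The difference of two values. -/
theorem BB_diff (c a h : ℝ) :
    BB c (a - h) - BB c a = c * Real.log (1 - pp c a * (1 - Real.exp (-(h / c)))) := by
  have e1 : 1 - pp c a * (1 - Real.exp (-(h / c))) =
      (1 + Real.exp ((a - h) / c)) / (1 + Real.exp (a / c)) := by
    unfold pp
    have h1 : Real.exp ((a - h) / c) = Real.exp (a / c) * Real.exp (-(h / c)) := by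
      rw [← Real.exp_add]
      congr 1
      ring
    rw [h1]
    have : (1 + Real.exp (a / c)) ≠ 0 := by positivity
    field_simp
    ring
  rw [e1, Real.log_div (by positivity) (by positivity)]
  unfold BB
  ring

theorem BB_sub_le' {c : ℝ} (hc : 0 < c) (a h : ℝ) :
    BB c a - BB c (a - h) ≤ pp c a * h := by
  have hd := BB_diff c a h
  have hp := pp_pos c a
  have hq := pp_lt_one c a
  have h1 : Real.exp (-(pp c a * (h / c))) ≤ 1 - pp c a * (1 - Real.exp (-(h / c))) := by
    have hcv := convexOn_exp.2 (Set.mem_univ (0 : ℝ)) (Set.mem_univ (-(h / c)))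
      (show 0 ≤ 1 - pp c a by linarith) hp.le (by ring)
    simp only [smul_eq_mul, mul_zero, zero_add, Real.exp_zero, mul_one] at hcv
    have e : pp c a * -(h / c) = -(pp c a * (h / c)) := by ring
    rw [e] at hcv
    linarith
  have h2 : -(pp c a * (h / c)) ≤ Real.log (1 - pp c a * (1 - Real.exp (-(h / c)))) := by
    rw [Real.le_log_iff_exp_le (lt_of_lt_of_le (Real.exp_pos _) h1)]
    exact h1
  have h3 := mul_le_mul_of_nonneg_left h2 hc.le
  have e2 : c * -(pp c a * (h / c)) = -(pp c a * h) := by field_simp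
  rw [e2] at h3
  linarith

theorem BB_sub_le {c : ℝ} (hc : 0 < c) (a : ℝ) {h : ℝ} (_hh : 0 ≤ h) :
    BB c a - BB c (a - h) ≤ pp c a * h := BB_sub_le' hc a h

theorem le_BB_sub {c κ : ℝ} (hc : 0 < c) (hκ : 0 < κ) (hκ1 : κ ≤ 1) (a : ℝ) {h : ℝ} (hh : 0 ≤ h)
    (hh1 : h ≤ κ / 2 * c) :
    h * (pp c a - κ * pp c a * (1 - pp c a)) ≤ BB c a - BB c (a - h) := by
  have hd := BB_diff c a h
  obtain ⟨p, hpd⟩ : ∃ p, p = pp c a := ⟨_, rfl⟩
  obtain ⟨y, hyd⟩ : ∃ y, y = h / c := ⟨_, rfl⟩
  have hp : 0 < p := by rw [hpd]; exact pp_pos c a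
  have hq : p < 1 := by rw [hpd]; exact pp_lt_one c a
  have hy0 : 0 ≤ y := by rw [hyd]; positivity
  have hyk : y ≤ κ / 2 := by
    rw [hyd, div_le_iff₀ hc]
    exact hh1
  rw [← hpd, ← hyd] at hd
  rw [← hpd]
  have hexp1 : y - y ^ 2 / 2 ≤ 1 - Real.exp (-y) := by
    have h1 : Real.exp (-y) ≤ 1 - y + y ^ 2 / 2 := by
      have h3 : 1 + y + y ^ 2 / 2 ≤ Real.exp y := Real.quadratic_le_exp_of_nonneg hy0
      rw [Real.exp_neg, inv_le_comm₀ (Real.exp_pos _) (by nlinarith)]
      refine le_trans ?_ h3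
      rw [inv_le_comm₀ (by nlinarith) (by nlinarith)]
      rw [inv_eq_one_div, div_le_iff₀ (by nlinarith)]
      nlinarith [mul_nonneg hy0 hy0, mul_nonneg (mul_nonneg hy0 hy0) hy0, sq_nonneg (y ^ 2)]
    linarith
  have hlog : Real.log (1 - p * (1 - Real.exp (-y))) ≤ -(y * (p - κ * p * (1 - p))) := by
    have hpos : 0 < 1 - p * (1 - Real.exp (-y)) := by
      have : 0 < Real.exp (-y) := Real.exp_pos _
      nlinarith
    rcases le_or_gt (1 / 2) p with hp2 | hp2
    · have e1 : 1 - p * (1 - Real.exp (-y)) = Real.exp (-y) * (1 + (1 - p) * (Real.exp y - 1)) := by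
        have : Real.exp (-y) * Real.exp y = 1 := by rw [← Real.exp_add]; simp
        linear_combination -(1 - p) * this
      have hy1 : y ≤ 1 := by linarith
      have h2 : Real.exp y ≤ 1 + y + y ^ 2 := by
        have := Real.abs_exp_sub_one_sub_id_le (x := y) (by rw [abs_of_nonneg hy0]; exact hy1)
        have := (abs_le.1 this).2
        linarith
      have h3 : 1 ≤ Real.exp y := Real.one_le_exp hy0
      rw [e1, Real.log_mul (by positivity) (by nlinarith), Real.log_exp]
      have h4 : Real.log (1 + (1 - p) * (Real.exp y - 1)) ≤ (1 - p) * (Real.exp y - 1) := by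
        have := Real.log_le_sub_one_of_pos (x := 1 + (1 - p) * (Real.exp y - 1)) (by nlinarith)
        linarith
      have h5 : (1 - p) * (Real.exp y - 1) ≤ (1 - p) * (y + y ^ 2) :=
        mul_le_mul_of_nonneg_left (by linarith) (by linarith)
      have h6 : y * y ≤ y * (κ * p) := mul_le_mul_of_nonneg_left (by nlinarith) hy0
      nlinarith [mul_le_mul_of_nonneg_left h6 (show 0 ≤ 1 - p by linarith)]
    · have h4 : Real.log (1 - p * (1 - Real.exp (-y))) ≤ -(p * (1 - Real.exp (-y))) := by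
        have := Real.log_le_sub_one_of_pos hpos
        linarith
      have h5 : p * (y - y ^ 2 / 2) ≤ p * (1 - Real.exp (-y)) :=
        mul_le_mul_of_nonneg_left hexp1 hp.le
      have h6 : y * (y / 2) ≤ y * (κ * (1 - p)) := mul_le_mul_of_nonneg_left (by nlinarith) hy0
      nlinarith [mul_le_mul_of_nonneg_left h6 hp.le]
  have h7 := mul_le_mul_of_nonneg_left hlog hc.le
  rw [← hd] at h7
  have e2 : c * -(y * (p - κ * p * (1 - p))) = -(h * (p - κ * p * (1 - p))) := by
    rw [hyd]
    field_simp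
  rw [e2] at h7
  linarith

/-- On the positive side `BB c x` is close to `x`. -/
theorem BB_lt_add_one {c x : ℝ} (hc : 0 < c) (h : c * Real.log c < x) : BB c x < x + 1 := by
  have e : BB c x = x + c * Real.log (1 + Real.exp (-(x / c))) := by
    unfold BB
    have h1 : 1 + Real.exp (x / c) = Real.exp (x / c) * (1 + Real.exp (-(x / c))) := by
      rw [mul_add, ← Real.exp_add]
      simp [add_comm]
    rw [h1, Real.log_mul (by positivity) (by positivity), Real.log_exp, mul_add]
    congr 1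
    field_simp
  have h1 : Real.log (1 + Real.exp (-(x / c))) ≤ Real.exp (-(x / c)) := by
    have := Real.log_le_sub_one_of_pos (x := 1 + Real.exp (-(x / c))) (by positivity)
    linarith
  have h2 : Real.exp (-(x / c)) < 1 / c := by
    rw [← Real.exp_log (show 0 < 1 / c by positivity), Real.exp_lt_exp, one_div, Real.log_inv]
    have : Real.log c < x / c := by
      rw [lt_div_iff₀ hc]
      linarith
    linarith
  have h3 : c * Real.log (1 + Real.exp (-(x / c))) < 1 := by
    calc c * Real.log (1 + Real.exp (-(x / c))) ≤ c * Real.exp (-(x / c)) :=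
          mul_le_mul_of_nonneg_left h1 hc.le
      _ < c * (1 / c) := mul_lt_mul_of_pos_left h2 hc
      _ = 1 := by field_simp
  linarith

/-- On the negative side `BB c x` is small. -/
theorem BB_lt_one {c x : ℝ} (hc : 0 < c) (h : x < -(c * Real.log c)) : BB c x < 1 := by
  unfold BB
  have h1 : Real.log (1 + Real.exp (x / c)) ≤ Real.exp (x / c) := by
    have := Real.log_le_sub_one_of_pos (x := 1 + Real.exp (x / c)) (by positivity)
    linarith
  have h2 : Real.exp (x / c) < 1 / c := by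
    rw [← Real.exp_log (show 0 < 1 / c by positivity), Real.exp_lt_exp, one_div, Real.log_inv]
    rw [div_lt_iff₀ hc]
    linarith
  calc c * Real.log (1 + Real.exp (x / c)) ≤ c * Real.exp (x / c) :=
        mul_le_mul_of_nonneg_left h1 hc.le
    _ < c * (1 / c) := mul_lt_mul_of_pos_left h2 hc
    _ = 1 := by field_simp

/-- `BB c x ≥ c / 4` if `x ≥ -c`. -/
theorem quarter_le_BB {c x : ℝ} (hc : 0 < c) (h : -c ≤ x) : c / 4 ≤ BB c x := by
  refine le_trans ?_ (BB_mono hc h)
  unfold BB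
  have e : -c / c = -1 := by field_simp
  rw [e]
  have h1 : 1 - (1 + Real.exp (-1))⁻¹ ≤ Real.log (1 + Real.exp (-1)) :=
    Real.one_sub_inv_le_log_of_pos (by positivity)
  have h2 : Real.exp 1 < 3 := by
    have := Real.exp_one_lt_d9
    linarith
  have h3 : (1 : ℝ) / 3 < Real.exp (-1) := by
    rw [Real.exp_neg, one_div]
    exact inv_strictAnti₀ (Real.exp_pos 1) h2
  have h4 : (1 + Real.exp (-1))⁻¹ ≤ 3 / 4 := by
    rw [inv_le_comm₀ (by positivity) (by norm_num)]
    norm_num
    linarith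
  nlinarith

/-- The step of the transport. -/
theorem soft_step {c κ a α α₁ H H' H₁ u u₁ : ℝ} (hc : 0 < c) (hκ : 0 < κ) (hκ1 : κ ≤ 1 / 2)
    (hα : 0 ≤ α) (hαα : α ≤ α₁ / 2) (hα₁ : α₁ ≤ κ / 2 * c) (hH : H ≤ BB c a)
    (hH₁ : H₁ ≤ BB c (a - α₁)) (_hu : 0 ≤ u) (_hu1 : u ≤ 1) (h' : H' = H - u * α)
    (h₁ : H₁ = H - u₁ * α₁) (hF : u₁ ≤ u - κ * u * (1 - u)) : H' ≤ BB c (a - α) := by
  by_contra hcon
  push Not at hcon
  obtain ⟨p, hpd⟩ : ∃ p, p = pp c a := ⟨_, rfl⟩
  have hp : 0 < p := by rw [hpd]; exact pp_pos c a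
  have hq : p < 1 := by rw [hpd]; exact pp_lt_one c a
  have h0 : 0 ≤ α₁ := by linarith
  have ht := BB_sub_le' hc a α
  rw [← hpd] at ht
  have hup : u * α < p * α := by linarith
  have hup' : u < p := lt_of_mul_lt_mul_right hup hα
  have hdrop := le_BB_sub hc hκ (by linarith) a h0 hα₁
  rw [← hpd] at hdrop
  have h2 : u₁ * α₁ ≤ (u - κ * u * (1 - u)) * α₁ := mul_le_mul_of_nonneg_right hF h0
  have h3 : (p - u) * α ≤ (p - u) * ((1 - κ) * α₁) :=
    mul_le_mul_of_nonneg_left (by nlinarith) (by linarith)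
  have h4 : 0 ≤ κ * (p - u) * (p + u) * α₁ := by
    have : 0 ≤ p - u := by linarith
    positivity
  nlinarith

end Pool.Agent.XE
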